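import Pool.Agent.Q58.FI.Gen
import Pool.Agent.Y184.NT.Top
import Pool.Agent.Y692.NT.JacA

/-!
Varieties which correspond to subvarieties of generic complete intersections.
-/

set_option autoImplicit false
set_option linter.overlappingInstances false
set_option linter.unusedSectionVars false

open FF Pool.Agent.W602.GT Pool.Agent.Y184.NT Pool.Agent.W603.LV
open Pool.Agent.TH145.MG (DimLE)
open Pool.Agent.TH145.GC (Rt Cf finite_cf)

namespace Pool.Agent.Q58.FI

section

variable {M K L : Type} [Field M] [Field K] [Field L] [Algebra ℂ M] [Algebra ℂ K] [Algebra ℂ L]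
  [Algebra M K] [Algebra L K] [IsScalarTower ℂ M K] [IsScalarTower ℂ L K]
  [FiniteDimensional M K] [FiniteDimensional L K] {n N m : ℕ}

/-- Canonical forms of varieties which correspond to a variety with positive canonical bundle,
degree at most `2 m + 1`, if there are no lines through the fibres. -/
theorem dom2 [Algebra.EssFiniteType ℂ M] (hM : Algebra.trdeg ℂ M = n) {x : Fin N → M}
    {j0 : Fin N} (hj0 : x j0 = 1)
    {ω : (Fin n → Derivation ℂ M M) → M} (hω : IsPluri 1 ω) (hω0 : ∃ D, ω D ≠ 0)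
    (hreg : ∀ (f : Fin m → Fin N) (P : Place ℂ M), Divisorial n P →
      RegAt P (fun D => (∏ k, x (f k)) * ω D))
    (hgenL : IntermediateField.adjoin L (Set.range fun j => algebraMap M K (x j)) = ⊤)
    (hr : Module.finrank L K ≤ 2 * m + 1)
    (hNL : m + 2 ≤ Module.finrank L K → ∀ (a b : Fin N → L) (τ : K),
      (∀ j, algebraMap M K (x j) = algebraMap L K (a j) + τ * algebraMap L K (b j)) →
      IntermediateField.adjoin L {τ} = ⊤ → LinearIndependent L ![a, b] → False) :
    ∃ θ : (Fin n → Derivation ℂ L L) → L, IsPluri 1 θ ∧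
      (∀ P : Place ℂ L, Divisorial n P → RegAt P θ) ∧ ∃ D, θ D ≠ 0 := by
  classical
  have hessMK : Algebra.EssFiniteType M K := inferInstance
  have hessK : Algebra.EssFiniteType ℂ K := Algebra.EssFiniteType.comp ℂ M K
  have hessL : Algebra.EssFiniteType ℂ L := Pool.Agent.TH466.QG.ess_below (K := K)
  have hcL : CharZero L := charZero_of_injective_algebraMap (algebraMap ℂ L).injective
  have hK : Algebra.trdeg ℂ K = n := Pool.Agent.Y172.trdeg_up (K := M) hM
  have hL : Algebra.trdeg ℂ L = n := trdeg_below (K := K) hK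
  obtain ⟨z, EM, hz, hEM⟩ := Pool.Agent.Y172.exists_crd (k := ℂ) (K := M) hM
  choose EK hEK using fun i => Pool.Agent.Y172.exists_lift (k := ℂ) (K := M) (L := K) hM (EM i)
  have hzK : IsTranscendenceBasis ℂ (fun j => algebraMap M K (z j)) := hz.algebraMap_comp
  have hEKd := Pool.Agent.Y172.lift_dual hEM hEK
  obtain ⟨y, E, hy, hE⟩ := Pool.Agent.Y172.exists_crd (k := ℂ) (K := L) hL
  choose E' hE' using fun i => Pool.Agent.Y172.exists_lift (k := ℂ) (K := L) (L := K) hL (E i)
  have hEind : LinearIndependent K E' := lift_ind hE hE'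
  have hωE : ω EM ≠ 0 := by
    intro h0
    obtain ⟨D, hD⟩ := hω0
    apply hD
    rw [Pool.Agent.Y172.pluri_coord hz hEM hω D, h0, mul_zero]
  obtain ⟨W, hWdef⟩ : ∃ W : (Fin m → Fin N) → (Fin n → Derivation ℂ K K) → K,
    W = fun f => pull z ((∏ k, x (f k)) * ω EM) := ⟨_, rfl⟩
  have hWp : ∀ f, IsPluri 1 (W f) := fun f => by
    rw [hWdef]
    exact pull_pluri _ _
  have hWr : ∀ f (Q : Place ℂ K), Divisorial n Q → RegAt Q (W f) := by
    intro f Q hQ D hD
    rw [hWdef]
    have hp : IsPluri 1 (fun D => (∏ k, x (f k)) * ω D) := by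
      intro A D
      change (∏ k, x (f k)) * ω (fun i => ∑ j, A i j • D j) = _
      rw [hω A D]
      ring
    exact Pool.Agent.Y297.NT.t_Pull Pool.Agent.Y71.NT.t_abh M K n n hM hK z hz EM hEM
      (fun D => (∏ k, x (f k)) * ω D) hp (hreg f) Q hQ D hD
  obtain ⟨h, hhdef⟩ : ∃ h : K, h = pull z (ω EM) E' := ⟨_, rfl⟩
  have hh : h ≠ 0 := by
    rw [hhdef]
    exact mul_ne_zero (minor_ne hzK hEKd hEind) (by simpa using hωE)
  have hWE : ∀ f, W f E' = (∏ k, algebraMap M K (x (f k))) * h := by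
    intro f
    rw [hWdef, hhdef]
    simp only [pull]
    rw [map_mul, map_prod]
    ring
  obtain ⟨T, hT⟩ : ∃ T : (Fin m → Fin N) → L,
    ∀ f, T f = Algebra.trace L K ((∏ k, algebraMap M K (x (f k))) * h) := ⟨_, fun _ => rfl⟩
  have hθp : ∀ f, IsPluri 1 (trForm y (T f)) := fun f => trForm_pluri y (T f)
  have hθr : ∀ f (P : Place ℂ L), Divisorial n P → RegAt P (trForm y (T f)) := by
    intro f P hP
    rw [hT, ← hWE]
    exact trForm_reg hL hy hE hE' (W f) (hWp f) (hWr f) P hP
  have hθE : ∀ t, trForm y t E = t := by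
    intro t
    have h1 : (Matrix.of fun i j => E i (y j) : Matrix (Fin n) (Fin n) L) = 1 := by
      ext i j
      rw [Matrix.of_apply, hE, Matrix.one_apply]
    rw [trForm, h1, Matrix.det_one, one_mul]
  have hj0' : algebraMap M K (x j0) = 1 := by rw [hj0, map_one]
  obtain ⟨f, hf⟩ : ∃ f, T f ≠ 0 := by
    by_contra hcon
    push Not at hcon
    obtain ⟨h1, a, b, τ, h2, h3, h4⟩ := Pool.Agent.Y614.NT.stLine Pool.Agent.Y153.NT.stCB L K N m
      (fun j => algebraMap M K (x j)) j0 hj0' hgenL h hh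
      (fun f => by rw [← hT, hcon]) hr
    exact hNL h1 a b τ h2 h3 h4
  exact ⟨trForm y (T f), hθp f, hθr f, E, by rw [hθE]; exact hf⟩

end


end Pool.Agent.Q58.FI
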