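import Pool.Agent.Q58.FI.Gen
import Pool.Agent.Q58.FI.Dom2

/-!
Varieties which correspond to subvarieties of generic complete intersections.
-/

set_option autoImplicit false
set_option linter.overlappingInstances false
set_option linter.unusedSectionVars false

open FF Pool.Agent.W602.GT Pool.Agent.Y184.NT Pool.Agent.W603.LV
open Pool.Agent.TH145.MG (DimLE)
open Pool.Agent.TH145.GC (Rt Cf finite_cf)

namespace Pool.Agent.Q58.FI

/-- A variety over which there is a point of small degree, on a variety with many canonical forms,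
has a canonical form. -/
theorem pg_of_point {L0 E : Type} [Field L0] [Field E] [Algebra ℂ L0] [Algebra ℂ E] [Algebra L0 E]
    [IsScalarTower ℂ L0 E] [FiniteDimensional L0 E] [Algebra.EssFiniteType ℂ L0] {n N w : ℕ}
    (htr : Algebra.trdeg ℂ L0 = w) {x : Fin n → E} {j0 : Fin n} (hx1 : x j0 = 1)
    {M0 : IntermediateField ℂ E} (hM0 : M0 = IntermediateField.adjoin ℂ (Set.range x))
    (halg : Algebra.IsAlgebraic M0 E) {x0 : Fin n → M0} (hx0 : ∀ j, (x0 j : E) = x j)
    {ω : (Fin w → Derivation ℂ M0 M0) → M0} (hω : IsPluri 1 ω) (hω0 : ∃ D, ω D ≠ 0)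
    (hreg : ∀ (f : Fin N → Fin n) (P : Place ℂ M0), Divisorial w P →
      RegAt P (fun D => (∏ k, x0 (f k)) * ω D))
    (hr : Module.finrank L0 E ≤ 2 * N + 1)
    (hline : ∀ (a b : Fin n → L0) (τ : E), LinearIndependent L0 ![a, b] →
      (∀ j, x j = algebraMap L0 E (a j) + τ * algebraMap L0 E (b j)) →
      N + 2 ≤ (minpoly L0 τ).natDegree → False) :
    ∃ θ : (Fin w → Derivation ℂ L0 L0) → L0, IsPluri 1 θ ∧
      (∀ P : Place ℂ L0, Divisorial w P → RegAt P θ) ∧ ∃ D, θ D ≠ 0 := by
  classical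
  obtain ⟨E', hE'⟩ : ∃ E' : IntermediateField L0 E,
    E' = IntermediateField.adjoin L0 (Set.range x) := ⟨_, rfl⟩
  have hxE : ∀ j, x j ∈ E' := fun j => by
    rw [hE']
    exact IntermediateField.subset_adjoin L0 _ ⟨j, rfl⟩
  have hle : ∀ y : E, y ∈ M0 → y ∈ E' := by
    have h1 : M0 ≤ E'.restrictScalars ℂ := by
      rw [hM0, IntermediateField.adjoin_le_iff]
      rintro _ ⟨j, rfl⟩
      exact hxE j
    exact fun y hy => h1 hy
  let ι : M0 →+* E' :=
    { toFun := fun y => ⟨y.1, hle _ y.2⟩
      map_one' := rfl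
      map_zero' := rfl
      map_mul' := fun _ _ => rfl
      map_add' := fun _ _ => rfl }
  let _ : Algebra M0 E' := ι.toAlgebra
  have hst : IsScalarTower ℂ M0 E' := IsScalarTower.of_algebraMap_eq fun c => Subtype.ext rfl
  have hst2 : IsScalarTower M0 E' E := IsScalarTower.of_algebraMap_eq fun c => rfl
  have hfin1 : Module.finrank L0 E' ≤ 2 * N + 1 := by
    refine le_trans ?_ hr
    exact (IntermediateField.finrank_le_of_le_right (le_top : E' ≤ ⊤)).trans
      (by rw [IntermediateField.finrank_top'])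
  have hessE : Algebra.EssFiniteType ℂ E' := Algebra.EssFiniteType.comp ℂ L0 E'
  have hessM : Algebra.EssFiniteType M0 E' := Algebra.EssFiniteType.of_comp ℂ M0 E'
  have halg' : Algebra.IsAlgebraic M0 E' := by
    refine ⟨fun y => ?_⟩
    have h1 := halg.isAlgebraic (y : E)
    exact (isAlgebraic_algebraMap_iff (A := E) (FaithfulSMul.algebraMap_injective E' E)).1 h1
  have hfd : FiniteDimensional M0 E' := Algebra.finite_of_essFiniteType_of_isAlgebraic
  have hessM0 : Algebra.EssFiniteType ℂ M0 := by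
    rw [hM0, IntermediateField.essFiniteType_iff]
    exact ⟨Finset.univ.image x, by
      rw [Finset.coe_image, Finset.coe_univ, Set.image_univ]⟩
  have htrM : Algebra.trdeg ℂ M0 = w := by
    rw [← Pool.Agent.TH466.QG.trdeg_alg (k := ℂ) (E := M0) (K := E'),
      Pool.Agent.TH466.QG.trdeg_alg (k := ℂ) (E := L0) (K := E'), htr]
  have hx01 : x0 j0 = 1 := Subtype.ext (by rw [hx0, hx1]; rfl)
  have hgenL : IntermediateField.adjoin L0 (Set.range fun j => algebraMap M0 E' (x0 j)) = ⊤ := by
    subst hE'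
    apply IntermediateField.lift_injective
    rw [IntermediateField.lift_adjoin, IntermediateField.lift_top]
    congr 1
    ext y
    constructor
    · rintro ⟨_, ⟨j, rfl⟩, rfl⟩
      exact ⟨j, (hx0 j).symm⟩
    · rintro ⟨j, rfl⟩
      exact ⟨algebraMap M0 _ (x0 j), ⟨j, rfl⟩, hx0 j⟩
  refine dom2 (M := M0) (K := E') (L := L0) htrM hx01 hω hω0 hreg hgenL hfin1 ?_
  intro hN a b τ hab hτ hlin
  refine hline a b (τ : E) hlin (fun j => ?_) ?_
  · rw [← hx0]
    exact congrArg Subtype.val (hab j)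
  · have h1 : minpoly L0 (τ : E) = minpoly L0 τ := by
      exact minpoly.algebraMap_eq (B := E') (B' := E) Subtype.val_injective τ
    rw [h1, (Field.primitive_element_iff_minpoly_natDegree_eq L0 τ).1 hτ]
    exact hN


end Pool.Agent.Q58.FI
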