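import Pool.Agent.Q58.FI.NoLine
import Pool.Agent.Q58.FI.PgPt

/-!
Varieties which correspond to subvarieties of generic complete intersections.
-/

set_option autoImplicit false
set_option linter.overlappingInstances false
set_option linter.unusedSectionVars false

open FF Pool.Agent.Y184.NT
open Pool.Agent.W602.GT hiding lin
open Pool.Agent.TH145.MG (DimLE)
open Pool.Agent.TH145.GC (Rt Cf finite_cf)

namespace Pool.Agent.Q58.FI

/-- The line through the conjugates of a point of an algebraic set which is defined by forms of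
small degree is contained in the algebraic set. -/
theorem restr_zero {L E : Type} [Field L] [Field E] [Algebra ℂ L] [Algebra ℂ E] [Algebra L E]
    [IsScalarTower ℂ L E] [FiniteDimensional L E] {n N e : ℕ} {f : MvPolynomial (Fin n) ℂ}
    (hf : f.IsHomogeneous e) (he : e ≤ N + 1) {x : Fin n → E} (hx : MvPolynomial.aeval x f = 0)
    {a b : Fin n → L} {τ : E} (hxab : ∀ j, x j = algebraMap L E (a j) + τ * algebraMap L E (b j))
    (hN : N + 2 ≤ (minpoly L τ).natDegree) : restr f a b = 0 := by
  by_contra hne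
  have h1 : Polynomial.aeval τ (restr f a b) = 0 := by
    have h5 := MvPolynomial.comp_aeval_apply
      (φ := (Polynomial.aeval τ : Polynomial L →ₐ[L] E).restrictScalars ℂ) (lin a b) f
    have h6 : (fun j => (Polynomial.aeval τ : Polynomial L →ₐ[L] E).restrictScalars ℂ
        (lin a b j)) = x := by
      funext j
      change Polynomial.aeval τ (lin a b j) = _
      rw [aeval_lin, hxab]
    rw [h6, hx] at h5
    exact h5
  have h2 := Polynomial.natDegree_le_of_dvd (minpoly.dvd L τ h1) hne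
  have h3 := (Pool.Agent.Y692.NT.restr_coeff hf a b).1
  omega

section

variable {k' : Type} [Field k'] [Algebra k' ℂ] {n m w N : ℕ} {A : Type} [Fintype A]
    {d : A → ℕ} {V : Set (MvPolynomial (Fin (n + 1)) k')}
    {F : A → MvPolynomial (Fin (n + 1)) ℂ}

/-- Varieties which correspond to subvarieties of generic complete intersections. -/
theorem corr (hVh : ∀ f ∈ V, ∃ e, f.IsHomogeneous e) (hV : DimLE k' V m)
    (hd : 2 * m + 1 + N ≤ ∑ a, (d a + 1) + w) (hF : ∀ a, (F a).IsHomogeneous (d a))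
    (hgen : AlgebraicIndependent k' fun p : Cf n d => (F p.1).coeff p.2.1) (hw : 1 ≤ w)
    {L E : Type} [Field L] [Field E] [Algebra ℂ L] [Algebra ℂ E] [Algebra L E]
    [IsScalarTower ℂ L E] [FiniteDimensional L E] [Algebra.EssFiniteType ℂ L]
    (htr : Algebra.trdeg ℂ L = w) {x : Fin (n + 1) → E} (hx : x ≠ 0)
    (hxX : ∀ p, MvPolynomial.aeval x (eqs V F p) = 0)
    (halg : Algebra.IsAlgebraic (coords ℂ x) E) :
    (Module.finrank L E ≤ N → GeneralType ℂ L w) ∧
    (Module.finrank L E ≤ N + 1 ∨ (Module.finrank L E ≤ 2 * N + 1 ∧ (∀ a, d a ≤ N + 1) ∧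
        ∀ f ∈ V, ∃ e ≤ N + 1, f.IsHomogeneous e) →
      ∃ θ : (Fin w → Derivation ℂ L L) → L, IsPluri 1 θ ∧
        (∀ P : Place ℂ L, Divisorial w P → RegAt P θ) ∧ ∃ D, θ D ≠ 0) := by
  classical
  obtain ⟨j0, hj0⟩ := Function.ne_iff.1 hx
  have hj0' : x j0 ≠ 0 := hj0
  obtain ⟨u, hu⟩ : ∃ u : Fin (n + 1) → E, u = fun j => (x j0)⁻¹ * x j := ⟨_, rfl⟩
  have hu1 : u j0 = 1 := by
    rw [hu]
    exact inv_mul_cancel₀ hj0'
  obtain ⟨M0, hM0⟩ : ∃ M0 : IntermediateField ℂ E,
    M0 = IntermediateField.adjoin ℂ (Set.range u) := ⟨_, rfl⟩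
  have huM : ∀ j, u j ∈ M0 := fun j => by
    rw [hM0]
    exact IntermediateField.subset_adjoin ℂ _ ⟨j, rfl⟩
  have hco : coords ℂ x ≤ M0 := by
    unfold coords
    rw [IntermediateField.adjoin_le_iff]
    rintro _ ⟨i, j, hj, rfl⟩
    have h2 : x i / x j = u i / u j := by
      rw [hu]
      simp only
      rw [mul_div_mul_left _ _ (inv_ne_zero hj0')]
    rw [h2]
    exact div_mem (huM i) (huM j)
  have halgM : Algebra.IsAlgebraic M0 E := by
    refine ⟨fun y => ?_⟩
    exact Pool.Agent.TH145.MF.alg_mono (F1 := (coords ℂ x).toSubfield)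
      (F2 := M0.toSubfield) (fun z hz => hco hz) (halg.isAlgebraic y)
  obtain ⟨u0, hu0⟩ : ∃ u0 : Fin (n + 1) → M0, ∀ j, (u0 j : E) = u j :=
    ⟨fun j => ⟨u j, huM j⟩, fun _ => rfl⟩
  have htrE : Algebra.trdeg ℂ E = w := by
    rw [Pool.Agent.TH466.QG.trdeg_alg (k := ℂ) (E := L) (K := E), htr]
  have htrM : Algebra.trdeg ℂ M0 = w := by
    rw [← Pool.Agent.TH466.QG.trdeg_alg (k := ℂ) (E := M0) (K := E), htrE]
  have hu01 : u0 j0 = 1 := Subtype.ext (by rw [hu0, hu1]; rfl)
  have hgen0 : IntermediateField.adjoin ℂ (Set.range u0) = ⊤ := by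
    subst hM0
    apply IntermediateField.lift_injective
    rw [IntermediateField.lift_adjoin, IntermediateField.lift_top]
    congr 1
    ext y
    constructor
    · rintro ⟨_, ⟨j, rfl⟩, rfl⟩
      exact ⟨j, (hu0 j).symm⟩
    · rintro ⟨j, rfl⟩
      exact ⟨u0 j, ⟨j, rfl⟩, hu0 j⟩
  have hcoA : Algebra.IsAlgebraic (coords ℂ u0) M0 := by
    rw [coords_top hu01 hgen0]
    infer_instance
  have hvalu : ∀ (p : MvPolynomial (Fin (n + 1)) ℂ) (e : ℕ), p.IsHomogeneous e →
      MvPolynomial.aeval x p = 0 → MvPolynomial.aeval u p = 0 := by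
    intro p e he h0
    have h2 := val_smul he (x j0)⁻¹ x
    have h3 : val x p = 0 := h0
    rw [h3, mul_zero] at h2
    rw [hu]
    exact h2
  have hval : ∀ (p : MvPolynomial (Fin (n + 1)) ℂ) (e : ℕ), p.IsHomogeneous e →
      MvPolynomial.aeval x p = 0 → MvPolynomial.aeval u0 p = 0 := by
    intro p e he h0
    have h1 := hvalu p e he h0
    apply Subtype.ext
    have h2 : ((MvPolynomial.aeval u0 p : M0) : E) = MvPolynomial.aeval (fun j => (u0 j : E)) p :=
      MvPolynomial.comp_aeval_apply (φ := M0.val) u0 p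
    rw [h2, funext hu0, h1]
    rfl
  have hxV : ∀ f ∈ V, MvPolynomial.aeval x (MvPolynomial.map (algebraMap k' ℂ) f) = 0 :=
    fun f hf => hxX (Sum.inl ⟨f, hf⟩)
  have hxC : ∀ a, MvPolynomial.aeval x (F a) = 0 := fun a => hxX (Sum.inr a)
  obtain ⟨ω, hω, hω0, hreg⟩ := form_gen (k' := k') (N := N) (w := w) hV hF
    hgen hw hd htrM u0 hu01 hcoA (fun f hf => by
      obtain ⟨e, he⟩ := hVh f hf
      exact hval _ e (he.map _) (hxV f hf)) (fun a => hval _ (d a) (hF a) (hxC a))
  refine ⟨fun hr => gt_of_point hw htr hu1 hM0 halgM hu0 hω hω0 hreg hr, fun hr => ?_⟩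
  refine pg_of_point htr hu1 hM0 halgM hu0 hω hω0 hreg (by omega) ?_
  intro a b τ hlin hab hN
  have hdeg : (minpoly L τ).natDegree ≤ Module.finrank L E := minpoly.natDegree_le τ
  rcases hr with hr | ⟨-, hda, hVd⟩
  · omega
  have hb : b ≠ 0 := by
    have h1 := hlin.ne_zero 1
    simpa using h1
  have hτL : ∀ c : L, algebraMap L E c ≠ τ := by
    intro c hc
    have h1 : (minpoly L τ).natDegree = 1 := by
      rw [← hc, minpoly.eq_X_sub_C]
      exact Polynomial.natDegree_X_sub_C c
    omega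
  have hb0 : b j0 = 0 := by
    by_contra hne
    have hne' : algebraMap L E (b j0) ≠ 0 := by simpa using hne
    apply hτL ((1 - a j0) / b j0)
    rw [map_div₀, map_sub, map_one, div_eq_iff hne', ← hu1, hab j0]
    ring
  have ha0 : a j0 = 1 := by
    have h1 := hab j0
    rw [hb0, map_zero, mul_zero, add_zero, hu1] at h1
    exact (map_eq_one_iff _ (algebraMap L E).injective).1 h1.symm
  obtain ⟨z, E0, hz, -⟩ := Pool.Agent.Y172.exists_crd (k := ℂ) (K := L) htr
  obtain ⟨s, hs⟩ := Pool.Agent.TH145.GF.exists_coord_basis htrM hcoA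
  refine no_line (m := m) (w := w) hV hF hgen (by omega) hw htr ha0 hb0 hb (s := s) ?_ ?_ ?_
  · rw [algebraicIndependent_iff]
    intro G hG
    have h1 : restr (MvPolynomial.rename s G) a b = 0 := by
      apply io_inj
      have h8 : io (0 : Polynomial L) = 0 := map_zero _
      rw [h8]
      have h2 := io_restr (MvPolynomial.rename s G) a b
      rw [MvPolynomial.aeval_rename] at h2
      exact h2.trans hG
    have h3 : MvPolynomial.aeval u (MvPolynomial.rename s G) = 0 := by
      have h5 := MvPolynomial.comp_aeval_apply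
        (φ := (Polynomial.aeval τ : Polynomial L →ₐ[L] E).restrictScalars ℂ) (lin a b)
        (MvPolynomial.rename s G)
      have h6 : (fun j => (Polynomial.aeval τ : Polynomial L →ₐ[L] E).restrictScalars ℂ
          (lin a b j)) = u := by
        funext j
        change Polynomial.aeval τ (lin a b j) = _
        rw [aeval_lin, hab]
      rw [h6] at h5
      rw [← h5]
      have h7 : MvPolynomial.aeval (lin a b) (MvPolynomial.rename s G) = 0 := h1
      rw [h7]
      exact map_zero _
    have h4 : MvPolynomial.aeval (fun i => u0 (s i)) G = 0 := by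
      apply Subtype.ext
      have h2 : ((MvPolynomial.aeval (fun i => u0 (s i)) G : M0) : E) =
          MvPolynomial.aeval (fun i => (u0 (s i) : E)) G :=
        MvPolynomial.comp_aeval_apply (φ := M0.val) (fun i => u0 (s i)) G
      rw [h2]
      rw [MvPolynomial.aeval_rename] at h3
      have h5 : (fun i => (u0 (s i) : E)) = u ∘ s := funext fun i => hu0 (s i)
      rw [h5, h3]
      rfl
    exact (algebraicIndependent_iff.1 hs.1) G h4
  · intro f hf
    obtain ⟨e, he, hfe⟩ := hVd f hf
    exact restr_zero (hfe.map _) he (hvalu _ e (hfe.map _) (hxV f hf)) hab hN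
  · intro i
    exact restr_zero (hF i) (hda i) (hvalu _ (d i) (hF i) (hxC i)) hab hN

end

end Pool.Agent.Q58.FI
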