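import Pool.Agent.Y221.FQ.Sur

/-!
Points with rational image under a morphism with small fibres have small degree.
-/

set_option autoImplicit false

namespace Pool.Agent.Q58.FI

open Pool.Agent.W602.GT Pool.Agent.Y221.FQ MvPolynomial

variable {k' K : Type} [Field k'] [Field K] [Algebra k' K] {n M : ℕ} {κ : Type}

/-- a polynomial with coefficients in a subfield -/
theorem exists_desc (E : IntermediateField k' K) {σ : Type} (p : MvPolynomial σ K)
    (h : ∀ c, p.coeff c ∈ E) : ∃ q : MvPolynomial σ E, map (algebraMap E K) q = p := by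
  classical
  refine ⟨∑ c ∈ p.support.attach, monomial c.1 (⟨p.coeff c.1, h c.1⟩ : E), ?_⟩
  rw [map_sum]
  simp only [map_monomial]
  conv_rhs => rw [p.as_sum, ← Finset.sum_attach]
  rfl

theorem aeval_desc {E L : Type} [Field E] [Field L] [Algebra E K] [Algebra E L] [Algebra L K]
    [IsScalarTower E L K] {σ : Type} (p : MvPolynomial σ E) (x : σ → L) :
    algebraMap L K (aeval x p) = eval (fun i => algebraMap L K (x i)) (map (algebraMap E K) p) := by
  rw [eval_map, ← aeval_def, ← aeval_algebraMap_apply]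
  rfl

theorem val_eq_eval (x : Fin (n + 1) → K) (p : MvPolynomial (Fin (n + 1)) K) :
    val x p = eval x p := by
  unfold val
  rw [aeval_eq_eval]

variable [IsAlgClosed K]

/-- the coordinates are algebraic -/
theorem alg_pt (E : IntermediateField k' K) {Ψ : κ → MvPolynomial (Fin (n + 1)) K}
    {G : Fin (M + 1) → MvPolynomial (Fin (n + 1)) K} (hG : NoBase Ψ G) {e : ℕ} (he : 1 ≤ e)
    (hGe : ∀ j, (G j).IsHomogeneous e) (hΨ : ∀ i, IsForm (Ψ i))
    (hΨE : ∀ i, ∀ c, (Ψ i).coeff c ∈ E) (hGE : ∀ j, ∀ c, (G j).coeff c ∈ E)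
    {x : Fin (n + 1) → K} (hx : ∀ i, val x (Ψ i) = 0) {i0 : Fin (n + 1)} (hi0 : x i0 = 1)
    {q : Fin (M + 1) → K} (hq : ∀ j, q j ∈ E) {c : K} (hc : c ≠ 0)
    (hxq : ∀ j, im G x j = c * q j) (i : Fin (n + 1)) : IsAlgebraic E (x i) := by
  classical
  obtain ⟨k1, hk1⟩ : ∃ k1 : IntermediateField E K, k1 = algebraicClosure E K := ⟨_, rfl⟩
  have hac : IsAlgClosed k1 := hk1 ▸ (algebraicClosure.isAlgClosure E K).isAlgClosed
  have hmem : ∀ z : K, z ∈ k1 ↔ IsAlgebraic E z := fun z => by
    rw [hk1]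
    exact mem_algebraicClosure_iff
  choose Ψ2 hΨ2 using fun i => exists_desc E (Ψ i) (hΨE i)
  choose G2 hG2 using fun j => exists_desc E (G j) (hGE j)
  let Ψ1 : κ → MvPolynomial (Fin (n + 1)) k1 := fun i => map (algebraMap E k1) (Ψ2 i)
  let G1 : Fin (M + 1) → MvPolynomial (Fin (n + 1)) k1 := fun j => map (algebraMap E k1) (G2 j)
  have hΨ1 : ∀ i, map (algebraMap k1 K) (Ψ1 i) = Ψ i := by
    intro i
    simp only [Ψ1]
    rw [map_map, ← IsScalarTower.algebraMap_eq, hΨ2]
  have hG1 : ∀ j, map (algebraMap k1 K) (G1 j) = G j := by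
    intro j
    simp only [G1]
    rw [map_map, ← IsScalarTower.algebraMap_eq, hG2]
  have hinj : Function.Injective (algebraMap k1 K) := (algebraMap k1 K).injective
  have hval : ∀ (y : Fin (n + 1) → K) (p : MvPolynomial (Fin (n + 1)) k1),
      val y p = eval y (map (algebraMap k1 K) p) := by
    intro y p
    rw [eval_map]
    rfl
  have hform : ∀ i, IsForm (Ψ1 i) := by
    intro i
    obtain ⟨d, hd⟩ := hΨ i
    refine ⟨d, ?_⟩
    rw [← hΨ1 i] at hd
    exact (IsHomogeneous.of_map (f := algebraMap k1 K) hinj hd)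
  have hGh : ∀ j, (G1 j).IsHomogeneous e := by
    intro j
    have hd := hGe j
    rw [← hG1 j] at hd
    exact (IsHomogeneous.of_map (f := algebraMap k1 K) hinj hd)
  have hnb : NoBase Ψ1 G1 := by
    intro y hy hyΨ
    have h1 : ∀ p : MvPolynomial (Fin (n + 1)) k1,
        algebraMap k1 K (val y p) =
          eval (fun i => algebraMap k1 K (y i)) (map (algebraMap k1 K) p) := by
      intro p
      exact aeval_desc (K := K) (E := k1) (L := k1) p y
    obtain ⟨j, hj⟩ := hG (fun i => algebraMap k1 K (y i)) (by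
      intro h0
      apply hy
      funext i
      have := congrFun h0 i
      exact hinj (by rw [this, Pi.zero_apply, Pi.zero_apply, map_zero])) (by
      intro i
      rw [val_eq_eval, ← hΨ1 i, ← h1, hyΨ, map_zero])
    refine ⟨j, fun h0 => hj ?_⟩
    rw [val_eq_eval, ← hG1 j, ← h1, h0, map_zero]
  obtain ⟨lam, hlam⟩ := IsAlgClosed.exists_pow_nat_eq c⁻¹ (by omega : 0 < e)
  have hlam0 : lam ≠ 0 := by
    rintro rfl
    rw [zero_pow (by omega)] at hlam
    exact inv_ne_zero hc hlam.symm
  have key : ∀ i, IsAlgebraic E (lam * x i) := by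
    intro i
    have h1 := const_of (k := k1) (F := Ψ1) (G := G1) hform hnb he hGh (K := K) (A := ⊥)
      (y := fun i => lam * x i) (fun i => by
        rw [hval, hΨ1 i]
        obtain ⟨d, hd⟩ := hΨ i
        rw [← val_eq_eval, val_smul hd, hx, mul_zero]) (fun j => by
        have h2 : im G1 (fun i => lam * x i) j = q j := by
          unfold im
          rw [hval, hG1 j, ← val_eq_eval, val_smul (hGe j)]
          have h3 := hxq j
          unfold im at h3
          rw [h3, hlam, inv_mul_cancel_left₀ hc]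
        rw [h2, IntermediateField.mem_bot]
        have h3 : q j ∈ k1 := (hmem _).2 (isAlgebraic_algebraMap (⟨q j, hq j⟩ : E))
        exact ⟨⟨q j, h3⟩, rfl⟩) i
    have h2 : IsAlgebraic k1 (lam * x i) := by
      obtain ⟨p, hp, hpx⟩ := h1
      have h4 : Algebra.IsAlgebraic k1 (⊥ : IntermediateField k1 K) := inferInstance
      exact IsAlgebraic.restrictScalars k1 ⟨p, hp, hpx⟩
    have h3 : Algebra.IsAlgebraic E k1 := by
      rw [hk1]
      infer_instance
    exact IsAlgebraic.restrictScalars E h2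
  have h1 := key i
  have h2 := key i0
  rw [hi0, mul_one] at h2
  have h3 : x i = lam * x i * lam⁻¹ := by
    rw [mul_comm lam, mul_assoc, mul_inv_cancel₀ hlam0, mul_one]
  rw [h3]
  exact h1.mul h2.inv

variable [CharZero K]

/-- the degree of the field of definition is at most the number of points in the fibres -/
theorem deg_pt (E : IntermediateField k' K) {Ψ : κ → MvPolynomial (Fin (n + 1)) K}
    {G : Fin (M + 1) → MvPolynomial (Fin (n + 1)) K} {r : ℕ} (hfib : FibresLe Ψ G r)
    (hG : NoBase Ψ G) {e : ℕ} (he : 1 ≤ e)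
    (hGe : ∀ j, (G j).IsHomogeneous e) (hΨ : ∀ i, IsForm (Ψ i))
    (hΨE : ∀ i, ∀ c, (Ψ i).coeff c ∈ E) (hGE : ∀ j, ∀ c, (G j).coeff c ∈ E)
    {x : Fin (n + 1) → K} (hx : ∀ i, val x (Ψ i) = 0) {i0 : Fin (n + 1)} (hi0 : x i0 = 1)
    {q : Fin (M + 1) → K} (hq : ∀ j, q j ∈ E) (hq0 : q ≠ 0) {c : K} (hc : c ≠ 0)
    (hxq : ∀ j, im G x j = c * q j) :
    FiniteDimensional E (IntermediateField.adjoin E (Set.range x)) ∧
      Module.finrank E (IntermediateField.adjoin E (Set.range x)) ≤ r := by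
  classical
  obtain ⟨L, hL⟩ : ∃ L : IntermediateField E K, L = IntermediateField.adjoin E (Set.range x) :=
    ⟨_, rfl⟩
  have halg := alg_pt E hG he hGe hΨ hΨE hGE hx hi0 hq hc hxq
  have hfd : FiniteDimensional E L := by
    rw [hL]
    refine IntermediateField.finiteDimensional_adjoin ?_
    rintro _ ⟨i, rfl⟩
    exact (halg i).isIntegral
  rw [← hL]
  refine ⟨hfd, ?_⟩
  have hczE : CharZero E := charZero_of_injective_algebraMap (algebraMap ℚ E).injective
  have hcard := AlgHom.card E L K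
  rw [← hcard]
  by_contra hlt
  push Not at hlt
  obtain ⟨s, hs⟩ : ∃ s : Fin (r + 1) → (L →ₐ[E] K), Function.Injective s := by
    have h1 : Fintype.card (Fin (r + 1)) ≤ Fintype.card (L →ₐ[E] K) := by
      rw [Fintype.card_fin]
      omega
    obtain ⟨f⟩ := Function.Embedding.nonempty_of_card_le h1
    exact ⟨f, f.injective⟩
  have hxL : ∀ i, x i ∈ L := fun i => by
    rw [hL]
    exact IntermediateField.subset_adjoin E _ ⟨i, rfl⟩
  let xL : Fin (n + 1) → L := fun i => ⟨x i, hxL i⟩
  choose Ψ2 hΨ2 using fun i => exists_desc E (Ψ i) (hΨE i)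
  choose G2 hG2 using fun j => exists_desc E (G j) (hGE j)
  have hinj : Function.Injective (algebraMap L K) := (algebraMap L K).injective
  have hcoe : ∀ p : MvPolynomial (Fin (n + 1)) E,
      algebraMap L K (aeval xL p) = eval x (map (algebraMap E K) p) := fun p =>
    aeval_desc (K := K) p xL
  have hσ : ∀ (a : Fin (r + 1)) (p : MvPolynomial (Fin (n + 1)) E),
      s a (aeval xL p) = eval (fun i => s a (xL i)) (map (algebraMap E K) p) := by
    intro a p
    rw [eval_map, ← aeval_def, ← comp_aeval_apply]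
  have hΨL : ∀ i, aeval xL (Ψ2 i) = 0 := by
    intro i
    apply hinj
    rw [hcoe, hΨ2, map_zero, ← val_eq_eval]
    exact hx i
  obtain ⟨j1, hj1⟩ := Function.ne_iff.1 hq0
  have hj1' : q j1 ≠ 0 := hj1
  have hqL : ∀ j, q j ∈ L := fun j => L.algebraMap_mem ⟨q j, hq j⟩
  obtain ⟨cL, hcL⟩ : ∃ cL : L, algebraMap L K cL = c := by
    refine ⟨aeval xL (G2 j1) / ⟨q j1, hqL j1⟩, ?_⟩
    rw [map_div₀, hcoe, hG2, ← val_eq_eval]
    have h1 := hxq j1
    unfold im at h1
    rw [h1]
    change c * q j1 / q j1 = c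
    field_simp
  have hcL0 : cL ≠ 0 := by
    rintro rfl
    rw [map_zero] at hcL
    exact hc hcL.symm
  have hGL : ∀ j, aeval xL (G2 j) = cL * algebraMap E L ⟨q j, hq j⟩ := by
    intro j
    apply hinj
    rw [hcoe, hG2, map_mul, hcL, ← val_eq_eval]
    exact hxq j
  have himG : ∀ a j, im G (fun i => s a (xL i)) j = s a cL * q j := by
    intro a j
    unfold im
    rw [val_eq_eval, ← hG2 j, ← hσ, hGL, map_mul, AlgHom.commutes]
    rfl
  have hone : ∀ a, s a (xL i0) = 1 := by
    intro a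
    have h1 : xL i0 = 1 := Subtype.ext hi0
    rw [h1, map_one]
  have hcone : ∀ a, (fun i => s a (xL i)) ∈ Cone Ψ := by
    intro a
    refine ⟨fun h0 => ?_, fun i => ?_⟩
    · have h1 : s a (xL i0) = 0 := congrFun h0 i0
      exact one_ne_zero ((hone a).symm.trans h1)
    · rw [val_eq_eval, ← hΨ2 i, ← hσ, hΨL, map_zero]
  have hprop : ∀ a b, ∃ c : K, im G (fun i => s a (xL i)) = c • im G (fun i => s b (xL i)) := by
    intro a b
    refine ⟨s a cL / s b cL, ?_⟩
    funext j
    rw [Pi.smul_apply, smul_eq_mul, himG, himG]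
    have h1 : s b cL ≠ 0 := by
      rw [Ne, map_eq_zero]
      exact hcL0
    field_simp
  obtain ⟨a, b, hab, c', hc'⟩ := hfib (fun a i => s a (xL i)) hcone hprop
  have h1 := congrFun hc' i0
  simp only [Pi.smul_apply, smul_eq_mul] at h1
  rw [hone, hone, mul_one] at h1
  apply hab
  apply hs
  apply IntermediateField.algHom_ext_of_eq_adjoin _ hL
  rintro _ ⟨i, rfl⟩
  have h2 := congrFun hc' i
  simp only [Pi.smul_apply, smul_eq_mul] at h2
  rw [← h1, one_mul] at h2
  exact h2

end Pool.Agent.Q58.FI
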