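import Mathlib

/-!
The equations of the intersection of a closed subset of projective space and hypersurfaces.
-/

set_option autoImplicit false

open MvPolynomial

namespace Pool.Agent.Q58.FI

/-- The equations of the intersection of `V` and the hypersurfaces `F a = 0`. -/
noncomputable def eqs {K0 K : Type} [Field K0] [Field K] [Algebra K0 K] {n : ℕ} {A : Type}
    (V : Set (MvPolynomial (Fin (n + 1)) K0)) (F : A → MvPolynomial (Fin (n + 1)) K) :
    V ⊕ A → MvPolynomial (Fin (n + 1)) K :=
  Sum.elim (fun f => map (algebraMap K0 K) f.1) F

end Pool.Agent.Q58.FI
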