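import Pool.Agent.Q58.FI.Deg

/-!
The fibres of a morphism given by forms without common zeros are finite.
-/

set_option autoImplicit false

namespace Pool.Agent.Q58.FI

open Pool.Agent.W602.GT Pool.Agent.Y221.FQ MvPolynomial

variable {K : Type} [Field K] [IsAlgClosed K] {n M : ℕ} {κ : Type}

/-- finite fibres -/
theorem fin_fibre {Ψ : κ → MvPolynomial (Fin (n + 1)) K}
    {G : Fin (M + 1) → MvPolynomial (Fin (n + 1)) K} (hΨ : ∀ i, IsForm (Ψ i))
    (hG : NoBase Ψ G) {e : ℕ} (he : 1 ≤ e) (hGe : ∀ j, (G j).IsHomogeneous e)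
    (w : Fin (M + 1) → K) : {y : Fin (n + 1) → K | (∀ i, val y (Ψ i) = 0) ∧ im G y = w}.Finite := by
  classical
  choose p hp hpX using fun i =>
    phi_integral hΨ hG he hGe (Ideal.Quotient.mk (IV Ψ) (X i : MvPolynomial (Fin (n + 1)) K))
  let ev : MvPolynomial (Fin (M + 1)) K →+* K := eval w
  let R : Fin (n + 1) → Set K := fun i => {z | ((p i).map ev).IsRoot z}
  have hR : ∀ i, (R i).Finite := by
    intro i
    exact Polynomial.finite_setOf_isRoot ((hp i).map ev).ne_zero
  refine (Set.Finite.pi' hR).subset ?_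
  rintro y ⟨hy, hyw⟩ i
  let η : MvPolynomial (Fin (n + 1)) K ⧸ IV Ψ →+* K :=
    Ideal.Quotient.lift (IV Ψ) (aeval y : MvPolynomial (Fin (n + 1)) K →ₐ[K] K).toRingHom
      fun p hp => val_of_IV hy hp
  have h1 : ev = η.comp (phi Ψ G).toRingHom := by
    refine RingHom.ext fun H => ?_
    have h2 : η ((phi Ψ G) H) = val y (aeval G H) := by
      rw [phi_eq]
      rfl
    change ev H = η ((phi Ψ G) H)
    rw [h2, ← val_im, hyw, val_eq_eval]
  have h2 := congrArg η (hpX i)
  rw [Polynomial.hom_eval₂, map_zero, ← h1] at h2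
  have h3 : η (Ideal.Quotient.mk (IV Ψ) (X i)) = y i := aeval_X _ i
  rw [h3] at h2
  change ((p i).map ev).IsRoot (y i)
  rw [Polynomial.IsRoot.def, Polynomial.eval_map]
  exact h2

end Pool.Agent.Q58.FI
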