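import Pool.Agent.Q58.FI.Fib
import Pool.Agent.Q58.FI.Eqs
import Pool.Agent.Y735.R2.Main2
import Pool.Agent.Y735.R3.FinalK
import Pool.Agent.Y221.AH.Im

/-!
Images of varieties over generic complete intersections: bounded curves and finitely many points.
-/

set_option autoImplicit false

open MvPolynomial FF Pool.Agent.W603.LV Pool.Agent.W603.PV Pool.Agent.TH145
open Pool.Agent.TH145.MG (DimLE)
open Pool.Agent.TH145.GC (Rt Cf finite_cf)
open LinearAlgebra.Projectivization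

namespace Pool.Agent.Q58.FI

open Pool.Agent.W602.GT Pool.Agent.Y221.FQ Pool.Agent.Y221.AH
open Pool.Agent.W603.CX (BoundedOnCurves)

/-- The ratios of independent coefficients are independent. -/
theorem ratio_fam {k K : Type} [Field k] [Field K] [Algebra k K] {n : ℕ} {A : Type}
    [Finite A] {dg : A → ℕ} {F : A → MvPolynomial (Fin (n + 1)) K}
    (hind : AlgebraicIndependent k fun p : Cf n dg => (F p.1).coeff p.2.1)
    (I0 : A → Fin (n + 1) →₀ ℕ) (hI0 : ∀ a, (I0 a).degree = dg a) :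
    AlgebraicIndependent k fun p : Rt dg I0 =>
      (F p.1).coeff p.2.1 / (F p.1).coeff (I0 p.1) := by
  classical
  have hcf := finite_cf n dg
  have h0 : ∀ a, (F a).coeff (I0 a) ≠ 0 := fun a => hind.ne_zero ⟨a, ⟨I0 a, hI0 a⟩⟩
  obtain ⟨y, hy⟩ : ∃ y : Cf n dg → K, ∀ p, y p =
    if p.2.1 = I0 p.1 then (F p.1).coeff p.2.1 else
      (F p.1).coeff p.2.1 / (F p.1).coeff (I0 p.1) := ⟨_, fun _ => rfl⟩
  have h1 : AlgebraicIndependent k y := by
    refine Pool.Agent.TH145.MG.indep_of_mem _ y hind fun p => ?_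
    have h2 : (F p.1).coeff (I0 p.1) ∈ Pool.Agent.TH145.MG.cl k (Set.range y) := by
      refine Pool.Agent.TH145.MG.subset_cl ⟨⟨p.1, ⟨I0 p.1, hI0 p.1⟩⟩, ?_⟩
      rw [hy, if_pos rfl]
    by_cases hp : p.2.1 = I0 p.1
    · rw [hp]; exact h2
    · have h3 : (F p.1).coeff p.2.1 / (F p.1).coeff (I0 p.1) ∈
          Pool.Agent.TH145.MG.cl k (Set.range y) := by
        refine Pool.Agent.TH145.MG.subset_cl ⟨p, ?_⟩
        rw [hy, if_neg hp]
      have h4 := mul_mem h3 h2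
      rwa [div_mul_cancel₀ _ (h0 p.1)] at h4
  have h2 := h1.comp (fun p : Rt dg I0 => (⟨p.1, ⟨p.2.1, p.2.2.1⟩⟩ : Cf n dg)) (by
    rintro ⟨a, ⟨I, hI⟩⟩ ⟨a', ⟨I', hI'⟩⟩ h
    have e1 : a = a' := congrArg Sigma.fst h
    subst e1
    have e2 := eq_of_heq (Sigma.mk.inj_iff.1 h).2
    have e3 : I = I' := congrArg Subtype.val e2
    subst e3
    rfl)
  have h3 : (y ∘ fun p : Rt dg I0 => (⟨p.1, ⟨p.2.1, p.2.2.1⟩⟩ : Cf n dg)) =
      fun p => (F p.1).coeff p.2.1 / (F p.1).coeff (I0 p.1) := by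
    funext p
    rw [Function.comp_apply, hy, if_neg p.2.2.2]
  rwa [h3] at h2

section

variable {k K : Type} [Field k] [Field K] [IsAlgClosed K] [CharZero K] [Algebra k K]
  {n m l M r : ℕ} {V : Set (MvPolynomial (Fin (n + 1)) (algebraicClosure k K))}
  {A : Type} [Fintype A] {d : A → ℕ} {F : A → MvPolynomial (Fin (n + 1)) K}
  {κ μ : Type} {Ψ : κ → MvPolynomial (Fin (l + 1)) K} {Φ : μ → MvPolynomial (Fin (M + 1)) K}
  {B : Fin (n + 1) → MvPolynomial (Fin (l + 1)) K}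
  {G : Fin (M + 1) → MvPolynomial (Fin (l + 1)) K}

theorem bounded_im (hVh : ∀ f ∈ V, ∃ e, f.IsHomogeneous e) (hV : DimLE (algebraicClosure k K) V m)
    (hd : 2 * m + 1 + r ≤ ∑ a, (d a + 1)) (hF : ∀ a, (F a).IsHomogeneous (d a))
    (hgen : AlgebraicIndependent k fun p : Cf n d => (F p.1).coeff p.2.1)
    (hΨ : ∀ e, IsForm (Ψ e)) (hB : Mor Ψ (eqs V F) B) (hG : Mor Ψ Φ G) (hon : Onto Ψ Φ G)
    (hfib : FibresLe Ψ G r) : BoundedOnCurves Φ := by
  intro L _ _ _
  obtain ⟨eB, heB, hBe⟩ := hB.form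
  obtain ⟨eG, heG, hGe⟩ := hG.form
  have hgen' : AlgebraicIndependent (algebraicClosure k K)
      fun p : Cf n d => (map (algebraMap K L) (F p.1)).coeff p.2.1 := by
    have h1 := hgen.algebraicClosure.map' (f := IsScalarTower.toAlgHom (algebraicClosure k K) K L)
      (algebraMap K L).injective
    have h2 : (fun p : Cf n d => (map (algebraMap K L) (F p.1)).coeff p.2.1) =
        (IsScalarTower.toAlgHom (algebraicClosure k K) K L) ∘
          fun p : Cf n d => (F p.1).coeff p.2.1 := by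
      funext p
      rw [coeff_map]
      rfl
    rw [h2]
    exact h1
  obtain ⟨C, hC⟩ := Pool.Agent.Y735.R3.bounded_K (k0 := algebraicClosure k K) (k := K)
    (K0 := algebraicClosure k K) (K := L) ⟨∅, by
      rw [Finset.coe_empty, IntermediateField.adjoin_empty]
      exact eq_top_iff.2 fun x _ => IntermediateField.mem_bot.2 ⟨x, rfl⟩⟩ hd V hVh hV
    (F := fun a => map (algebraMap K L) (F a)) (fun a => (hF a).map _) hgen'
  refine ⟨eG * max C 0, fun f hf0 hf => ?_⟩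
  have hf0' : f ≠ 0 := by
    rintro rfl
    obtain ⟨j, hj⟩ := hf0
    exact hj rfl
  obtain ⟨E, i1, i2, i3, i4, i5, u, i0, c, hrk, hu0, huΨ, hc0, hcz, htop⟩ :=
    lift_point hΨ hG hon hfib hf0' hf
  have hff : IsFF K E := isFF_of_finite (F := L)
  have huex : ∃ j, u j ≠ 0 := ⟨i0, by rw [hu0]; exact one_ne_zero⟩
  have hu : u ≠ 0 := by
    intro h0
    rw [h0] at hu0
    exact zero_ne_one hu0
  have h1 := hB.mem hu huΨ
  have h2 := hC E hrk (im B u) h1.1 (fun f hf => by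
    have h3 := h1.2 (Sum.inl ⟨f, hf⟩)
    have h4 : eqs V F (Sum.inl ⟨f, hf⟩) = map (algebraMap (algebraicClosure k K) K) f := rfl
    rw [h4] at h3
    unfold Pool.Agent.W602.GT.val at h3
    rw [aeval_def, eval₂_map] at h3 ⊢
    rw [← h3]
    congr 1
    refine RingHom.ext fun x => ?_
    change algebraMap L E (algebraMap K L _) = algebraMap K E _
    rw [← IsScalarTower.algebraMap_apply]
    rfl) (fun a => by
    have h3 := h1.2 (Sum.inr a)
    have h4 : eqs V F (Sum.inr a) = F a := rfl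
    rw [h4] at h3
    unfold Pool.Agent.W602.GT.val at h3
    rw [aeval_def] at h3
    rw [aeval_def, eval₂_map, ← IsScalarTower.algebraMap_eq]
    exact h3)
  rw [pht_im hB hBe hΨ huex huΨ] at h2
  have hGu := hG.mem hu huΨ
  have h3 : pht K (fun j => algebraMap L E (f j)) = eG * pht K u := by
    have h4 : (fun j => algebraMap L E (f j)) = fun j => c * im G u j := funext hcz
    rw [h4, pht_scale (Function.ne_iff.1 hGu.1) hc0, pht_im hG hGe hΨ huex huΨ]
  rw [pht_algebraMap hf0] at h3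
  have h4 : 0 ≤ pht K u := Pool.Agent.Y221.AH.pht_nonneg huex
  have h5 : 0 ≤ pht K f := Pool.Agent.Y221.AH.pht_nonneg hf0
  have h6 : (1 : ℤ) ≤ Module.finrank L E := by exact_mod_cast Module.finrank_pos
  have h7 : (1 : ℤ) ≤ eB := by exact_mod_cast heB
  have h8 : (0 : ℤ) ≤ eG := by positivity
  have h9 : pht K f ≤ Module.finrank L E * pht K f := by nlinarith
  have h10 : pht K u ≤ eB * pht K u := by nlinarith
  have h11 : pht K u ≤ max C 0 := (h10.trans h2).trans (le_max_left _ _)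
  have h12 := mul_le_mul_of_nonneg_left h11 h8
  linarith

theorem exists_fin (Ψ : κ → MvPolynomial (Fin (l + 1)) K) :
    ∃ s : Finset (MvPolynomial (Fin (l + 1)) K), (∀ p ∈ s, p ∈ Set.range Ψ) ∧
      ∀ x : Fin (l + 1) → K, (∀ p ∈ s, val x p = 0) → ∀ e, val x (Ψ e) = 0 := by
  classical
  have h1 : (Ideal.span (Set.range Ψ)).FG := IsNoetherian.noetherian _
  obtain ⟨s, hs, hs'⟩ := (Submodule.fg_span_iff_fg_span_finset_subset _).1 h1
  refine ⟨s, fun p hp => hs hp, fun x hx e => ?_⟩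
  have h2 : Ψ e ∈ Submodule.span (MvPolynomial (Fin (l + 1)) K)
      (s : Set (MvPolynomial (Fin (l + 1)) K)) := by
    rw [← hs']
    exact Submodule.subset_span ⟨e, rfl⟩
  have h3 : Submodule.span (MvPolynomial (Fin (l + 1)) K)
      (s : Set (MvPolynomial (Fin (l + 1)) K)) ≤ RingHom.ker (eval x) := by
    refine Submodule.span_le.2 fun p hp => ?_
    have h4 := hx p hp
    rw [val_eq_eval] at h4
    exact h4
  rw [val_eq_eval]
  exact h3 h2

theorem finite_im (hVh : ∀ f ∈ V, ∃ e, f.IsHomogeneous e) (hV : DimLE (algebraicClosure k K) V m)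
    (hd : 2 * m + 1 + r ≤ ∑ a, (d a + 1)) (hF : ∀ a, (F a).IsHomogeneous (d a))
    (hgen : AlgebraicIndependent k fun p : Cf n d => (F p.1).coeff p.2.1)
    (hΨ : ∀ e, IsForm (Ψ e)) (hB : Mor Ψ (eqs V F) B) (hG : Mor Ψ Φ G) (hon : Onto Ψ Φ G)
    (hfib : FibresLe Ψ G r) (T : Finset K) :
    {p : ℙ K (Fin (M + 1) → K) | ∃ q : Fin (M + 1) → K, q ∈ Cone Φ ∧
      (∀ j, q j ∈ IntermediateField.adjoin (algebraicClosure k K) (T : Set K)) ∧
      ∃ hq : q ≠ 0, p = Projectivization.mk K q hq}.Finite := by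
  classical
  obtain ⟨eB, heB, hBe⟩ := hB.form
  obtain ⟨eG, heG, hGe⟩ := hG.form
  -- finitely many equations
  obtain ⟨s, hsΨ, hs⟩ := exists_fin Ψ
  let Ψ0 : s → MvPolynomial (Fin (l + 1)) K := fun p => p.1
  have hΨ0 : ∀ p, IsForm (Ψ0 p) := by
    rintro ⟨p, hp⟩
    obtain ⟨e, rfl⟩ := hsΨ p hp
    exact hΨ e
  have hs0 : ∀ x : Fin (l + 1) → K, (∀ p, val x (Ψ0 p) = 0) ↔ ∀ e, val x (Ψ e) = 0 := by
    intro x
    constructor
    · intro h
      exact hs x fun p hp => h ⟨p, hp⟩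
    · rintro h ⟨p, hp⟩
      obtain ⟨e, rfl⟩ := hsΨ p hp
      exact h e
  have hnb : NoBase Ψ0 G := fun x hx h => hG.noBase x hx ((hs0 x).1 h)
  have hnbB : NoBase Ψ0 B := fun x hx h => hB.noBase x hx ((hs0 x).1 h)
  have hfib0 : FibresLe Ψ0 G r := by
    intro x hx h
    exact hfib x (fun i => ⟨(hx i).1, (hs0 _).1 (hx i).2⟩) h
  -- the field
  let cf : MvPolynomial (Fin (l + 1)) K → Finset K := fun p => p.support.image p.coeff
  obtain ⟨T', hT'⟩ : ∃ T' : Finset K, T' = T ∪ s.biUnion cf ∪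
    Finset.univ.biUnion (fun j => cf (G j)) ∪ Finset.univ.biUnion (fun j => cf (B j)) := ⟨_, rfl⟩
  obtain ⟨E, hE⟩ : ∃ E : IntermediateField (algebraicClosure k K) K,
    E = IntermediateField.adjoin (algebraicClosure k K) (T' : Set K) := ⟨_, rfl⟩
  have hTE : ∀ x ∈ T', x ∈ E := fun x hx => by
    rw [hE]
    exact IntermediateField.subset_adjoin _ _ hx
  have hTle : IntermediateField.adjoin (algebraicClosure k K) (T : Set K) ≤ E := by
    rw [IntermediateField.adjoin_le_iff]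
    intro x hx
    refine hTE x ?_
    rw [hT']
    exact Finset.mem_union_left _ (Finset.mem_union_left _ (Finset.mem_union_left _ hx))
  have hcf : ∀ (p : MvPolynomial (Fin (l + 1)) K), (∀ x ∈ cf p, x ∈ E) → ∀ c, p.coeff c ∈ E := by
    intro p hp c
    by_cases hc : c ∈ p.support
    · exact hp _ (Finset.mem_image.2 ⟨c, hc, rfl⟩)
    · rw [notMem_support_iff.1 hc]
      exact E.zero_mem
  have hΨE : ∀ i, ∀ c, (Ψ0 i).coeff c ∈ E := by
    rintro ⟨p, hp⟩
    refine hcf p fun x hx => hTE x ?_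
    rw [hT']
    exact Finset.mem_union_left _ (Finset.mem_union_left _ (Finset.mem_union_right _
      (Finset.mem_biUnion.2 ⟨p, hp, hx⟩)))
  have hGE : ∀ j, ∀ c, (G j).coeff c ∈ E := by
    intro j
    refine hcf _ fun x hx => hTE x ?_
    rw [hT']
    exact Finset.mem_union_left _ (Finset.mem_union_right _
      (Finset.mem_biUnion.2 ⟨j, Finset.mem_univ _, hx⟩))
  have hBE : ∀ j, ∀ c, (B j).coeff c ∈ E := by
    intro j
    refine hcf _ fun x hx => hTE x ?_
    rw [hT']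
    exact Finset.mem_union_right _ (Finset.mem_biUnion.2 ⟨j, Finset.mem_univ _, hx⟩)
  -- the points of the intersection
  obtain ⟨I0, hI0⟩ : ∃ I0 : A → Fin (n + 1) →₀ ℕ, ∀ a, (I0 a).degree = d a :=
    ⟨fun a => Finsupp.single 0 (d a), fun a => Finsupp.degree_single _ _⟩
  have h0 : ∀ a, (F a).coeff (I0 a) ≠ 0 := fun a => hgen.ne_zero ⟨a, ⟨I0 a, hI0 a⟩⟩
  have hind := ratio_fam hgen I0 hI0
  have hS := Pool.Agent.Y735.R2.fin_proj_alg hd V hVh hV F hF I0 h0 hind T'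
  obtain ⟨S, hSdef⟩ : ∃ S : Set (ℙ K (Fin (n + 1) → K)), S = {p : ℙ K (Fin (n + 1) → K) |
      ∃ x : Fin (n + 1) → K, (∀ f ∈ V, aeval x f = 0) ∧
      (∀ a, eval x (F a) = 0) ∧
      (∃ L : IntermediateField (IntermediateField.adjoin (algebraicClosure k K) (T' : Set K)) K,
        FiniteDimensional (IntermediateField.adjoin (algebraicClosure k K) (T' : Set K)) L ∧
        Module.finrank (IntermediateField.adjoin (algebraicClosure k K) (T' : Set K)) L ≤ r ∧
        ∀ j, x j ∈ L) ∧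
      ∃ hx : x ≠ 0, p = Projectivization.mk K x hx} := ⟨_, rfl⟩
  rw [← hSdef] at hS
  -- the points of `W` over them
  let Y : ℙ K (Fin (n + 1) → K) → Set (Fin (l + 1) → K) := fun p =>
    {y | (∀ i, val y (Ψ0 i) = 0) ∧ im B y = p.rep}
  have hY : ∀ p, (Y p).Finite := fun p => fin_fibre hΨ0 hnbB heB hBe p.rep
  have hfinY : (⋃ p ∈ S, Y p).Finite := hS.biUnion fun p _ => hY p
  obtain ⟨g, hg⟩ : ∃ g : (Fin (l + 1) → K) → ℙ K (Fin (M + 1) → K), ∀ y (hy : im G y ≠ 0),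
      g y = Projectivization.mk K (im G y) hy := by
    refine ⟨fun y => if hy : im G y ≠ 0 then Projectivization.mk K (im G y) hy else
      Projectivization.mk K (fun _ => 1) (fun h => one_ne_zero (congrFun h 0)), fun y hy => ?_⟩
    exact dif_pos hy
  refine (hfinY.image g).subset ?_
  rintro p ⟨q, hqΦ, hqT, hq0, rfl⟩
  obtain ⟨x, ⟨hx0, hxΨ⟩, hxq⟩ := hon q hqΦ
  obtain ⟨i0, hi0⟩ := Function.ne_iff.1 hx0
  have hi0' : x i0 ≠ 0 := hi0
  obtain ⟨x', hx'⟩ : ∃ x' : Fin (l + 1) → K, x' = fun i => (x i0)⁻¹ * x i := ⟨_, rfl⟩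
  have hx'1 : x' i0 = 1 := by
    rw [hx']
    exact inv_mul_cancel₀ hi0'
  have hx'Ψ : ∀ e, val x' (Ψ e) = 0 := by
    intro e
    obtain ⟨t, ht⟩ := hΨ e
    rw [hx', val_smul ht, hxΨ, mul_zero]
  have hx'0 : x' ≠ 0 := by
    intro h
    rw [h] at hx'1
    exact zero_ne_one hx'1
  have hx'q : ∀ j, im G x' j = ((x i0)⁻¹ ^ eG) * q j := by
    intro j
    rw [← hxq]
    unfold im
    rw [hx', val_smul (hGe j)]
  have hc0 : ((x i0)⁻¹ ^ eG) ≠ 0 := pow_ne_zero _ (inv_ne_zero hi0')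
  obtain ⟨hfd, hrk⟩ := deg_pt E hfib0 hnb heG hGe hΨ0 hΨE hGE ((hs0 x').2 hx'Ψ) hx'1
    (fun j => hTle (hqT j)) hq0 hc0 hx'q
  -- the image in the intersection
  have hBx := hB.maps x' ⟨hx'0, hx'Ψ⟩
  obtain ⟨L, hL⟩ : ∃ L : IntermediateField E K,
    L = IntermediateField.adjoin E (Set.range x') := ⟨_, rfl⟩
  rw [← hL] at hfd hrk
  have hxL : ∀ i, x' i ∈ L := fun i => by
    rw [hL]
    exact IntermediateField.subset_adjoin E _ ⟨i, rfl⟩
  have hBL : ∀ j, im B x' j ∈ L := by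
    intro j
    unfold im
    rw [val_eq_eval, eval_eq']
    refine sum_mem fun c _ => mul_mem ?_ (prod_mem fun i _ => pow_mem (hxL i) _)
    exact L.algebraMap_mem ⟨(B j).coeff c, hBE j c⟩
  have hpS : Projectivization.mk K (im B x') hBx.1 ∈ S := by
    rw [hSdef]
    subst hE
    refine ⟨im B x', fun f hf => ?_, fun a => ?_, ⟨L, hfd, hrk, hBL⟩, hBx.1, rfl⟩
    · have h3 := hBx.2 (Sum.inl ⟨f, hf⟩)
      have h4 : eqs V F (Sum.inl ⟨f, hf⟩) = map (algebraMap (algebraicClosure k K) K) f := rfl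
      rw [h4, val_eq_eval, eval_map] at h3
      exact h3
    · have h3 := hBx.2 (Sum.inr a)
      rw [val_eq_eval] at h3
      exact h3
  obtain ⟨v, hv⟩ := Projectivization.exists_smul_eq_mk_rep K (im B x') hBx.1
  obtain ⟨lam, hlam⟩ := IsAlgClosed.exists_pow_nat_eq (v : K) (by omega : 0 < eB)
  have hlam0 : lam ≠ 0 := by
    rintro rfl
    rw [zero_pow (by omega)] at hlam
    exact v.ne_zero hlam.symm
  have hGy : im G (fun i => lam * x' i) = fun j => (lam ^ eG * (x i0)⁻¹ ^ eG) * q j := by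
    funext j
    have h3 : im G (fun i => lam * x' i) j = lam ^ eG * im G x' j := by
      unfold im
      rw [val_smul (hGe j)]
    rw [h3, hx'q, mul_assoc]
  have hcc : lam ^ eG * (x i0)⁻¹ ^ eG ≠ 0 := mul_ne_zero (pow_ne_zero _ hlam0) hc0
  have hGy0 : im G (fun i => lam * x' i) ≠ 0 := by
    rw [hGy]
    intro h
    apply hq0
    funext j
    have := congrFun h j
    exact (mul_eq_zero.1 this).resolve_left hcc
  refine ⟨fun i => lam * x' i, Set.mem_iUnion₂.2 ⟨_, hpS, fun i => ?_, ?_⟩, ?_⟩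
  · obtain ⟨t, ht⟩ := hΨ0 i
    rw [val_smul ht, (hs0 x').2 hx'Ψ, mul_zero]
  · rw [← hv]
    funext j
    have h3 : im B (fun i => lam * x' i) j = lam ^ eB * im B x' j := by
      unfold im
      rw [val_smul (hBe j)]
    rw [h3, hlam]
    rfl
  · rw [hg _ hGy0, Projectivization.mk_eq_mk_iff']
    exact ⟨lam ^ eG * (x i0)⁻¹ ^ eG, by rw [hGy]; rfl⟩

end

end Pool.Agent.Q58.FI
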