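import Pool.Agent.Q58.FI.GForm
import Pool.Agent.Q58.FI.Main
import Pool.Agent.Y184.NT.Dom
import Pool.Agent.Y944.NT.NLG
import Pool.Agent.Y297.NT.Pull
import Pool.Agent.Y71.NT.Abh
import Pool.Agent.Y929.NT.W0
import Pool.Agent.Y888.NT.FinDer
import Pool.Agent.Y221.FQ.Sub
import Pool.Agent.TH466.QG.Top

/-!
Subvarieties of the images of covers of generic complete intersections are of general type.
-/

set_option autoImplicit false
set_option linter.overlappingInstances false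

open MvPolynomial FF Pool.Agent.W602.GT Pool.Agent.Y221.FQ
open Pool.Agent.TH145.MG (DimLE)
open Pool.Agent.TH145.GC (Rt Cf finite_cf)

namespace Pool.Agent.Q58.FI

theorem t_NLG : Pool.Agent.Y184.NT.StNLG := Pool.Agent.Y944.NT.stNLG
    (Pool.Agent.Y297.NT.t_Pull Pool.Agent.Y71.NT.t_abh) Pool.Agent.Y929.NT.t_W0
    Pool.Agent.Y888.NT.stDer

/-- A variety over which there is a point of small degree, on a variety with many canonical forms,
is of general type. -/
theorem gt_of_point {L0 E : Type} [Field L0] [Field E] [Algebra ℂ L0] [Algebra ℂ E] [Algebra L0 E]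
    [IsScalarTower ℂ L0 E] [FiniteDimensional L0 E] [Algebra.EssFiniteType ℂ L0] {n N w : ℕ}
    (hw : 1 ≤ w) (htr : Algebra.trdeg ℂ L0 = w) {x : Fin n → E} {j0 : Fin n} (hx1 : x j0 = 1)
    {M0 : IntermediateField ℂ E} (hM0 : M0 = IntermediateField.adjoin ℂ (Set.range x))
    (halg : Algebra.IsAlgebraic M0 E) {x0 : Fin n → M0} (hx0 : ∀ j, (x0 j : E) = x j)
    {ω : (Fin w → Derivation ℂ M0 M0) → M0} (hω : IsPluri 1 ω) (hω0 : ∃ D, ω D ≠ 0)
    (hreg : ∀ (f : Fin N → Fin n) (P : Place ℂ M0), Divisorial w P →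
      RegAt P (fun D => (∏ k, x0 (f k)) * ω D))
    (hr : Module.finrank L0 E ≤ N) : GeneralType ℂ L0 w := by
  classical
  obtain ⟨E', hE'⟩ : ∃ E' : IntermediateField L0 E,
    E' = IntermediateField.adjoin L0 (Set.range x) := ⟨_, rfl⟩
  have hxE : ∀ j, x j ∈ E' := fun j => by
    rw [hE']
    exact IntermediateField.subset_adjoin L0 _ ⟨j, rfl⟩
  have hle : ∀ y : E, y ∈ M0 → y ∈ E' := by
    have h1 : M0 ≤ E'.restrictScalars ℂ := by
      rw [hM0, IntermediateField.adjoin_le_iff]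
      rintro _ ⟨j, rfl⟩
      exact hxE j
    exact fun y hy => h1 hy
  let ι : M0 →+* E' :=
    { toFun := fun y => ⟨y.1, hle _ y.2⟩
      map_one' := rfl
      map_zero' := rfl
      map_mul' := fun _ _ => rfl
      map_add' := fun _ _ => rfl }
  let _ : Algebra M0 E' := ι.toAlgebra
  have hst : IsScalarTower ℂ M0 E' := IsScalarTower.of_algebraMap_eq fun c => Subtype.ext rfl
  have hst2 : IsScalarTower M0 E' E := IsScalarTower.of_algebraMap_eq fun c => rfl
  have hfin1 : Module.finrank L0 E' ≤ N := by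
    refine le_trans ?_ hr
    exact (IntermediateField.finrank_le_of_le_right (le_top : E' ≤ ⊤)).trans
      (by rw [IntermediateField.finrank_top'])
  have hessE : Algebra.EssFiniteType ℂ E' := Algebra.EssFiniteType.comp ℂ L0 E'
  have hessM : Algebra.EssFiniteType M0 E' := Algebra.EssFiniteType.of_comp ℂ M0 E'
  have halg' : Algebra.IsAlgebraic M0 E' := by
    refine ⟨fun y => ?_⟩
    have h1 := halg.isAlgebraic (y : E)
    exact (isAlgebraic_algebraMap_iff (A := E) (FaithfulSMul.algebraMap_injective E' E)).1 h1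
  have hfd : FiniteDimensional M0 E' := Algebra.finite_of_essFiniteType_of_isAlgebraic
  have hessM0 : Algebra.EssFiniteType ℂ M0 := by
    rw [hM0, IntermediateField.essFiniteType_iff]
    exact ⟨Finset.univ.image x, by
      rw [Finset.coe_image, Finset.coe_univ, Set.image_univ]⟩
  have htrM : Algebra.trdeg ℂ M0 = w := by
    rw [← Pool.Agent.TH466.QG.trdeg_alg (k := ℂ) (E := M0) (K := E'),
      Pool.Agent.TH466.QG.trdeg_alg (k := ℂ) (E := L0) (K := E'), htr]
  have hx01 : x0 j0 = 1 := Subtype.ext (by rw [hx0, hx1]; rfl)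
  have hgen : IntermediateField.adjoin ℂ (Set.range x0) = ⊤ := by
    subst hM0
    apply IntermediateField.lift_injective
    rw [IntermediateField.lift_adjoin, IntermediateField.lift_top]
    congr 1
    ext y
    constructor
    · rintro ⟨_, ⟨j, rfl⟩, rfl⟩
      exact ⟨j, (hx0 j).symm⟩
    · rintro ⟨j, rfl⟩
      exact ⟨x0 j, ⟨j, rfl⟩, hx0 j⟩
  have hgenL : IntermediateField.adjoin L0 (Set.range fun j => algebraMap M0 E' (x0 j)) = ⊤ := by
    subst hE'
    apply IntermediateField.lift_injective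
    rw [IntermediateField.lift_adjoin, IntermediateField.lift_top]
    congr 1
    ext y
    constructor
    · rintro ⟨_, ⟨j, rfl⟩, rfl⟩
      exact ⟨j, (hx0 j).symm⟩
    · rintro ⟨j, rfl⟩
      exact ⟨algebraMap M0 _ (x0 j), ⟨j, rfl⟩, hx0 j⟩
  exact (Pool.Agent.Y184.NT.dom (M := M0) (K := E') (L := L0) t_NLG hw htrM hx01 hgen hω hω0 hreg
    hgenL).2 hfin1

/-- A form is the sum of its terms. -/
theorem form_eq_sum {k K : Type} [Field k] [Field K] [Algebra k K] {n d : ℕ}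
    {F : MvPolynomial (Fin (n + 1)) K} (hF : F.IsHomogeneous d)
    [Fintype {I : Fin (n + 1) →₀ ℕ // I.degree = d}] :
    F = ∑ I : {I : Fin (n + 1) →₀ ℕ // I.degree = d},
      MvPolynomial.C (F.coeff I.1) * map (algebraMap k K) (monomial I.1 1) := by
  classical
  have h2 : ∀ I : {I : Fin (n + 1) →₀ ℕ // I.degree = d},
      MvPolynomial.C (F.coeff I.1) * map (algebraMap k K) (monomial I.1 1) =
        monomial I.1 (F.coeff I.1) := by
    intro I
    rw [MvPolynomial.map_monomial, map_one, C_mul_monomial, mul_one]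
  have h3 : ∀ I ∈ F.support, I.degree = d := by
    intro I hI
    exact Pool.Agent.TH145.GH.deg_of_mem hF hI
  rw [Finset.sum_congr rfl fun I _ => h2 I]
  conv_lhs => rw [F.as_sum]
  rw [← Finset.sum_subtype_of_mem (p := fun I : Fin (n + 1) →₀ ℕ => I.degree = d)
    (fun I => monomial I (F.coeff I)) (fun I hI => h3 I hI)]
  refine Finset.sum_subset (Finset.subset_univ _) fun I _ hI => ?_
  rw [Finset.mem_subtype, notMem_support_iff] at hI
  rw [hI, monomial_zero]

/-- The canonical forms of subvarieties of generic complete intersections. -/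
theorem form_gen {k' : Type} [Field k'] [Algebra k' ℂ] {n m w N : ℕ} {A : Type} [Fintype A]
    {d : A → ℕ} {V : Set (MvPolynomial (Fin (n + 1)) k')} (hV : DimLE k' V m)
    {F : A → MvPolynomial (Fin (n + 1)) ℂ} (hF : ∀ a, (F a).IsHomogeneous (d a))
    (hgen : AlgebraicIndependent k' fun p : Cf n d => (F p.1).coeff p.2.1) (hw : 0 < w)
    (hd : 2 * m + 1 + N ≤ ∑ a, (d a + 1) + w) {L : Type} [Field L] [Algebra ℂ L]
    (htr : Algebra.trdeg ℂ L = w) (x : Fin (n + 1) → L) {c0 : Fin (n + 1)} (hx1 : x c0 = 1)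
    (halg : Algebra.IsAlgebraic (coords ℂ x) L)
    (hxV : ∀ f ∈ V, aeval x (map (algebraMap k' ℂ) f) = 0) (hxC : ∀ a, aeval x (F a) = 0) :
    ∃ Φ : (Fin w → Derivation ℂ L L) → L, IsPluri 1 Φ ∧ (∃ D, Φ D ≠ 0) ∧
      ∀ (f : Fin N → Fin (n + 1)) (Q : Place ℂ L), Divisorial w Q →
        RegAt Q (fun D => (∏ k, x (f k)) * Φ D) := by
  classical
  have hfd : ∀ a, Finite {I : Fin (n + 1) →₀ ℕ // I.degree = d a} := fun a =>
    Pool.Agent.TH145.GH.finite_deg n (d a)
  have hft : ∀ a, Fintype {I : Fin (n + 1) →₀ ℕ // I.degree = d a} := fun a => Fintype.ofFinite _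
  obtain ⟨I0, hI0⟩ : ∃ I0 : A → Fin (n + 1) →₀ ℕ, ∀ a, (I0 a).degree = d a :=
    ⟨fun a => Finsupp.single 0 (d a), fun a => Finsupp.degree_single _ _⟩
  have h0 : ∀ a, (F a).coeff (I0 a) ≠ 0 := fun a => hgen.ne_zero ⟨a, ⟨I0 a, hI0 a⟩⟩
  have hind := ratio_fam hgen I0 hI0
  exact exists_form (k0 := k') (K := ℂ) (L := L) (n := n) (m := m) (w := w) (N := N) (A := A)
    (dg := d) V hV (J := fun a => {I : Fin (n + 1) →₀ ℕ // I.degree = d a})
    (fun _ I => monomial I.1 1) (fun _ I => isHomogeneous_monomial _ I.2)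
    (fun a I => (F a).coeff I.1) (fun a => ⟨I0 a, hI0 a⟩) h0 (by
      have h2 := hind.comp (fun p : (Σ a : A, {j : {I : Fin (n + 1) →₀ ℕ // I.degree = d a} //
        j ≠ ⟨I0 a, hI0 a⟩}) => (⟨p.1, p.2.1.1, p.2.1.2, fun h => p.2.2 (Subtype.ext h)⟩ :
          Rt d I0)) (by
          rintro ⟨a, ⟨⟨I, hI⟩, hI2⟩⟩ ⟨a', ⟨⟨I', hI'⟩, hI2'⟩⟩ h
          have e1 : a = a' := congrArg Sigma.fst h
          subst e1
          have e2 := eq_of_heq (Sigma.mk.inj_iff.1 h).2
          have e3 : I = I' := congrArg Subtype.val e2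
          subst e3
          rfl)
      exact h2) c0 (fun _ I hI => ⟨⟨I, Pool.Agent.TH145.GD.deg_St hI⟩, rfl⟩)
    (F := F) (fun a => Pool.Agent.Q58.FI.form_eq_sum (hF a)) hw (by
      have hS : ∑ a, (d a + 1) = ∑ a, d a + Fintype.card A := by
        rw [Finset.sum_add_distrib, Finset.sum_const, smul_eq_mul, mul_one, Finset.card_univ]
      omega) htr x hx1 halg hxV hxC

section

variable {k : Type} [Field k] [Algebra k ℂ] {n m l M r : ℕ}
  {V : Set (MvPolynomial (Fin (n + 1)) (algebraicClosure k ℂ))}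
  {A : Type} [Fintype A] {d : A → ℕ} {F : A → MvPolynomial (Fin (n + 1)) ℂ}
  {κ μ : Type} {Ψ : κ → MvPolynomial (Fin (l + 1)) ℂ} {Φ : μ → MvPolynomial (Fin (M + 1)) ℂ}
  {B : Fin (n + 1) → MvPolynomial (Fin (l + 1)) ℂ}
  {G : Fin (M + 1) → MvPolynomial (Fin (l + 1)) ℂ}

/-- Subvarieties of the images of covers of generic complete intersections are of general type. -/
theorem general_im (hVh : ∀ f ∈ V, ∃ e, f.IsHomogeneous e) (hV : DimLE (algebraicClosure k ℂ) V m)
    (hd : 2 * m + 1 + r ≤ ∑ a, (d a + 1)) (hF : ∀ a, (F a).IsHomogeneous (d a))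
    (hgen : AlgebraicIndependent k fun p : Cf n d => (F p.1).coeff p.2.1)
    (hΨ : ∀ e, IsForm (Ψ e)) (hB : Mor Ψ (eqs V F) B) (hG : Mor Ψ Φ G) (hon : Onto Ψ Φ G)
    (hfib : FibresLe Ψ G r) : AllGeneral Φ := by
  classical
  intro L0 _ _ w z hw hz
  obtain ⟨E, i1, i2, i3, i4, i5, u, i0, c, hrk, hu0, huΨ, hc0, hcz, htop⟩ :=
    lift_point hΨ hG hon hfib hz.ne hz.mem
  have halg : Algebra.IsAlgebraic (coords ℂ (im B u)) E :=
    lift_alg hΨ hB hz.gen hu0 huΨ hc0 hcz htop
  have hu : u ≠ 0 := by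
    intro h0
    rw [h0] at hu0
    exact zero_ne_one hu0
  have hBu := hB.mem hu huΨ
  obtain ⟨j0, hj0⟩ := Function.ne_iff.1 hBu.1
  have hj0' : im B u j0 ≠ 0 := hj0
  obtain ⟨x, hx⟩ : ∃ x : Fin (n + 1) → E, x = fun j => (im B u j0)⁻¹ * im B u j := ⟨_, rfl⟩
  have hx1 : x j0 = 1 := by
    rw [hx]
    exact inv_mul_cancel₀ hj0'
  obtain ⟨M0, hM0⟩ : ∃ M0 : IntermediateField ℂ E,
    M0 = IntermediateField.adjoin ℂ (Set.range x) := ⟨_, rfl⟩
  have hco : coords ℂ (im B u) ≤ M0 := by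
    unfold coords
    rw [IntermediateField.adjoin_le_iff]
    rintro _ ⟨i, j, hj, rfl⟩
    have h1 : ∀ i, x i ∈ M0 := fun i => by
      rw [hM0]
      exact IntermediateField.subset_adjoin ℂ _ ⟨i, rfl⟩
    have h2 : im B u i / im B u j = x i / x j := by
      rw [hx]
      simp only
      rw [mul_div_mul_left _ _ (inv_ne_zero hj0')]
    rw [h2]
    exact div_mem (h1 i) (h1 j)
  have halgM : Algebra.IsAlgebraic M0 E := by
    refine ⟨fun y => ?_⟩
    exact Pool.Agent.TH145.MF.alg_mono (F1 := (coords ℂ (im B u)).toSubfield)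
      (F2 := M0.toSubfield) (fun z hz => hco hz) (halg.isAlgebraic y)
  have hxM : ∀ j, x j ∈ M0 := fun j => by
    rw [hM0]
    exact IntermediateField.subset_adjoin ℂ _ ⟨j, rfl⟩
  obtain ⟨x0, hx0⟩ : ∃ x0 : Fin (n + 1) → M0, ∀ j, (x0 j : E) = x j :=
    ⟨fun j => ⟨x j, hxM j⟩, fun _ => rfl⟩
  have htrE : Algebra.trdeg ℂ E = w := by
    rw [Pool.Agent.TH466.QG.trdeg_alg (k := ℂ) (E := L0) (K := E), hz.dim]
  have htrM : Algebra.trdeg ℂ M0 = w := by
    rw [← Pool.Agent.TH466.QG.trdeg_alg (k := ℂ) (E := M0) (K := E), htrE]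
  have hx01 : x0 j0 = 1 := Subtype.ext (by rw [hx0, hx1]; rfl)
  have hcoM : coords ℂ x0 = ⊤ := by
    have h1 : IntermediateField.adjoin ℂ (Set.range x0) = ⊤ := by
      subst hM0
      apply IntermediateField.lift_injective
      rw [IntermediateField.lift_adjoin, IntermediateField.lift_top]
      congr 1
      ext y
      constructor
      · rintro ⟨_, ⟨j, rfl⟩, rfl⟩
        exact ⟨j, (hx0 j).symm⟩
      · rintro ⟨j, rfl⟩
        exact ⟨x0 j, ⟨j, rfl⟩, hx0 j⟩
    rw [_root_.eq_top_iff, ← h1, IntermediateField.adjoin_le_iff]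
    rintro _ ⟨j, rfl⟩
    refine IntermediateField.subset_adjoin ℂ _ ⟨j, j0, ?_, ?_⟩
    · rw [hx01]
      exact one_ne_zero
    · rw [hx01, div_one]
  have hcoA : Algebra.IsAlgebraic (coords ℂ x0) M0 := by
    rw [hcoM]
    infer_instance
  have hval : ∀ p : MvPolynomial (Fin (n + 1)) ℂ, IsForm p → val (im B u) p = 0 →
      aeval x0 p = 0 := by
    intro p hp h0
    obtain ⟨e, he⟩ := hp
    have h1 : aeval x p = 0 := by
      have h2 := val_smul he (im B u j0)⁻¹ (im B u)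
      rw [h0, mul_zero] at h2
      rw [hx]
      exact h2
    apply Subtype.ext
    have h2 : ((aeval x0 p : M0) : E) = aeval (fun j => (x0 j : E)) p :=
      comp_aeval_apply (φ := M0.val) x0 p
    rw [h2, funext hx0, h1]
    rfl
  obtain ⟨ω, hω, hω0, hreg⟩ := form_gen (k' := algebraicClosure k ℂ) (N := r) (w := w) hV hF
    hgen.algebraicClosure hw (by omega) htrM x0 hx01 hcoA (fun f hf => by
      obtain ⟨e, he⟩ := hVh f hf
      exact hval _ ⟨e, he.map _⟩ (hBu.2 (Sum.inl ⟨f, hf⟩))) (fun a => hval _ ⟨d a, hF a⟩ (hBu.2 (Sum.inr a)))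
  have hess : Algebra.EssFiniteType ℂ L0 := Pool.Agent.TH466.QG.SubVar.ess hz
  exact gt_of_point hw hz.dim hx1 hM0 halgM hx0 hω hω0 hreg hrk

end

end Pool.Agent.Q58.FI
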