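import Pool.Agent.Y221.AH.Hp
import Pool.Agent.W603.CX.Basic

/-!
Heights of the images of points under forms with coefficients in a function field.
-/

set_option autoImplicit false
set_option linter.overlappingInstances false
set_option linter.unusedSectionVars false

open FF MvPolynomial Pool.Agent.W603.LV Pool.Agent.W603.PV

namespace Pool.Agent.Q58.FI

open Pool.Agent.Y221.AH

/-- order of the value of a form -/
theorem ge_form' {k L F : Type} [Field k] [Field L] [Algebra k L] [Field F] [Algebra F L] {n : ℕ}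
    (P : Place k L) (f : Fin (n + 1) → L)
    {H : MvPolynomial (Fin (n + 1)) F} {d : ℕ} (hH : H.IsHomogeneous d) {N : ℤ}
    (hc : ∀ α ∈ H.support, Ge P N (algebraMap F L (H.coeff α))) :
    Ge P (N + d * pord P f) (aeval f H) := by
  rw [aeval_def, eval₂_eq']
  refine Ge.sum _ _ fun α hα => ?_
  have h1 := (hc α hα).mul (Ge.prod Finset.univ (fun a => f a ^ α a) (fun a => α a * pord P f)
    (fun a _ => (ge_pord P f a).pow (α a)))
  refine h1.mono (le_of_eq ?_)
  have h2 : ∑ a, α a = d := by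
    have := hH (mem_support_iff.1 hα)
    rw [← this, Finsupp.weight_apply, Finsupp.sum_fintype _ _ (by simp)]
    simp
  rw [← Finset.sum_mul]
  congr 2
  exact_mod_cast h2.symm

variable {k K : Type} [Field k] [IsAlgClosed k] [CharZero k] [Field K] [Algebra k K] [IsFF k K]
  {n M : ℕ}

theorem pht_nn {E : Type} [Field E] [Algebra k E] [IsFF k E] {u : Fin (n + 1) → E}
    (hu : ∃ j, u j ≠ 0) : 0 ≤ pht k u := by
  obtain ⟨j, hj⟩ := hu
  have h1 := Pool.Agent.W603.CX.hgt_le_pht (k := k) u hj hj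
  rw [div_self hj, hgt_one] at h1
  exact h1

/-- heights of the values of forms -/
theorem pht_form_le {G : Fin (M + 1) → MvPolynomial (Fin (n + 1)) K} {e : ℕ}
    (hG : ∀ j, (G j).IsHomogeneous e) :
    ∃ C : ℤ, 0 ≤ C ∧ ∀ (L : Type) [Field L] [Algebra k L] [Algebra K L] [IsScalarTower k K L]
      [FiniteDimensional K L] (u : Fin (n + 1) → L), (∃ j, u j ≠ 0) →
      (∃ j, aeval u (G j) ≠ 0) →
      pht k (fun j => aeval u (G j)) ≤ e * pht k u + Module.finrank K L * C := by
  classical
  obtain ⟨S, hS⟩ : ∃ S : Finset K, S = Finset.univ.biUnion fun j => (G j).support.image (G j).coeff :=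
    ⟨_, rfl⟩
  let c : Fin (S.card + 1) → K := Fin.cons 1 fun i => (S.equivFin.symm i).1
  have hc0 : ∃ j, c j ≠ 0 := ⟨0, by simp [c]⟩
  have hcS : ∀ x ∈ S, ∃ j, c j = x := by
    intro x hx
    refine ⟨(S.equivFin ⟨x, hx⟩).succ, ?_⟩
    simp [c]
  refine ⟨pht k c, pht_nn hc0, fun L _ _ _ _ _ u hu hGu => ?_⟩
  have hff : IsFF k L := isFF_of_finite (F := K)
  have hc0' : ∃ j, algebraMap K L (c j) ≠ 0 := by
    obtain ⟨j, hj⟩ := hc0
    exact ⟨j, by rwa [Ne, map_eq_zero]⟩
  rw [← pht_algebraMap (L := L) hc0]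
  obtain ⟨T1, hT1⟩ := exists_supp (k := k) Finset.univ u
  obtain ⟨T2, hT2⟩ := exists_supp (k := k) Finset.univ fun j => aeval u (G j)
  obtain ⟨T3, hT3⟩ := exists_supp (k := k) Finset.univ fun j => algebraMap K L (c j)
  obtain ⟨T, hT⟩ : ∃ T : Finset (Place k L), T = T1 ∪ T2 ∪ T3 := ⟨_, rfl⟩
  rw [pht_sum hu T fun j P hP => by
      rw [hT]
      exact Finset.mem_union_left _ (Finset.mem_union_left _ (hT1 j (Finset.mem_univ j) P hP)),
    pht_sum hGu T fun j P hP => by
      rw [hT]
      exact Finset.mem_union_left _ (Finset.mem_union_right _ (hT2 j (Finset.mem_univ j) P hP)),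
    pht_sum hc0' T fun j P hP => by
      rw [hT]
      exact Finset.mem_union_right _ (hT3 j (Finset.mem_univ j) P hP),
    Finset.mul_sum, ← Finset.sum_add_distrib]
  refine Finset.sum_le_sum fun P _ => ?_
  have h1 : pord P (fun j => algebraMap K L (c j)) + e * pord P u ≤
      pord P fun j => aeval u (G j) := by
    rw [pord_le_iff P hGu]
    intro j
    refine ge_form' P u (hG j) fun α hα => ?_
    obtain ⟨i, hi⟩ := hcS ((G j).coeff α) (by
      rw [hS]
      exact Finset.mem_biUnion.2 ⟨j, Finset.mem_univ j, Finset.mem_image.2 ⟨α, hα, rfl⟩⟩)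
    rw [← hi]
    exact ge_pord P (fun j => algebraMap K L (c j)) i
  linarith

end Pool.Agent.Q58.FI
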