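import Pool.Agent.Q58.FI.Deg

/-!
Lifting points over finite extensions of a field to a cover of small degree.
-/

set_option autoImplicit false

namespace Pool.Agent.Q58.FI

open Pool.Agent.W602.GT Pool.Agent.Y221.FQ MvPolynomial

/-- the polynomials over the algebraic closure -/
noncomputable def bc {K : Type} [Field K] {n : ℕ} {κ : Type}
    (Ψ : κ → MvPolynomial (Fin (n + 1)) K) :
    κ → MvPolynomial (Fin (n + 1)) (AlgebraicClosure K) :=
  fun i => map (algebraMap K (AlgebraicClosure K)) (Ψ i)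

variable {K : Type} [Field K] [CharZero K] {n M : ℕ} {κ μ : Type}
  {Ψ : κ → MvPolynomial (Fin (n + 1)) K} {Φ : μ → MvPolynomial (Fin (M + 1)) K}
  {G : Fin (M + 1) → MvPolynomial (Fin (n + 1)) K}

theorem lift_pt (hΨ : ∀ i, IsForm (Ψ i)) (hG : Mor (bc Ψ) (bc Φ) (bc G))
    (hon : Onto (bc Ψ) (bc Φ) (bc G)) {t : ℕ} (hfib : FibresLe (bc Ψ) (bc G) t)
    {L : Type} [Field L] [Algebra K L] [FiniteDimensional K L] {z : Fin (M + 1) → L}
    (hz : z ≠ 0) (hzΦ : ∀ i, aeval z (Φ i) = 0) :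
    ∃ (E : Type) (_ : Field E) (_ : Algebra K E) (_ : Algebra L E) (_ : IsScalarTower K L E)
      (_ : FiniteDimensional L E) (ψ : E →ₐ[K] AlgebraicClosure K) (u : Fin (n + 1) → E)
      (i0 : Fin (n + 1)) (c : E), Module.finrank L E ≤ t ∧ u i0 = 1 ∧
      (fun i => ψ (u i)) ∈ Cone (bc Ψ) ∧ c ≠ 0 ∧
      ∀ j, algebraMap L E (z j) = c * aeval u (G j) := by
  classical
  obtain ⟨e, he, hGe⟩ := hG.form
  let Ω := AlgebraicClosure K
  let φ : L →ₐ[K] Ω := IsAlgClosed.lift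
  obtain ⟨E, hE⟩ : ∃ E : IntermediateField K Ω, E = φ.fieldRange := ⟨_, rfl⟩
  let z' : Fin (M + 1) → Ω := fun j => φ (z j)
  have hz'E : ∀ j, z' j ∈ E := fun j => by rw [hE]; exact ⟨z j, rfl⟩
  have hz'0 : z' ≠ 0 := by
    intro h
    apply hz
    funext j
    exact φ.injective (by rw [Pi.zero_apply, map_zero]; exact congrFun h j)
  have hz'Φ : ∀ i, val z' (bc Φ i) = 0 := by
    intro i
    rw [val_eq_eval]
    unfold bc
    rw [eval_map]
    have h1 : eval₂ (algebraMap K Ω) z' (Φ i) = φ (aeval z (Φ i)) := by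
      rw [← aeval_def, ← comp_aeval_apply]
    rw [h1, hzΦ, map_zero]
  obtain ⟨x, ⟨hx0, hxΨ⟩, hxz⟩ := hon z' ⟨hz'0, hz'Φ⟩
  obtain ⟨i0, hi0⟩ := Function.ne_iff.1 hx0
  have hi0' : x i0 ≠ 0 := hi0
  have hform : ∀ i, IsForm (bc Ψ i) := by
    intro i
    obtain ⟨d, hd⟩ := hΨ i
    exact ⟨d, hd.map _⟩
  obtain ⟨x', hx'⟩ : ∃ x' : Fin (n + 1) → Ω, x' = fun i => (x i0)⁻¹ * x i := ⟨_, rfl⟩
  have hx'1 : x' i0 = 1 := by
    rw [hx']
    exact inv_mul_cancel₀ hi0'
  have hx'Ψ : ∀ e, val x' (bc Ψ e) = 0 := by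
    intro e
    obtain ⟨t, ht⟩ := hform e
    rw [hx', val_smul ht, hxΨ, mul_zero]
  have hx'0 : x' ≠ 0 := by
    intro h
    rw [h] at hx'1
    exact zero_ne_one hx'1
  have hx'q : ∀ j, im (bc G) x' j = ((x i0)⁻¹ ^ e) * z' j := by
    intro j
    rw [← hxz]
    unfold im
    rw [hx', val_smul (hGe j)]
  have hc0 : ((x i0)⁻¹ ^ e) ≠ 0 := pow_ne_zero _ (inv_ne_zero hi0')
  have hcoef : ∀ {l : ℕ} (p : MvPolynomial (Fin (l + 1)) K) c,
      (map (algebraMap K Ω) p).coeff c ∈ E := by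
    intro l p c
    rw [coeff_map]
    exact E.algebraMap_mem _
  have hnb : NoBase (bc Ψ) (bc G) := fun x hx h => Function.ne_iff.1 (hG.maps x ⟨hx, h⟩).1
  obtain ⟨hfd, hrk⟩ := deg_pt E hfib hnb he hGe hform (fun i c => hcoef (Ψ i) c)
    (fun j c => hcoef (G j) c) hx'Ψ hx'1 hz'E hz'0 hc0 hx'q
  obtain ⟨L', hL'⟩ : ∃ L' : IntermediateField E Ω,
    L' = IntermediateField.adjoin E (Set.range x') := ⟨_, rfl⟩
  rw [← hL'] at hfd hrk
  have hxL : ∀ i, x' i ∈ L' := fun i => by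
    rw [hL']
    exact IntermediateField.subset_adjoin E _ ⟨i, rfl⟩
  -- `L` is isomorphic to `E`
  let σ : L ≃ₐ[K] E := (AlgEquiv.ofInjectiveField φ).trans
    (IntermediateField.equivOfEq (hE.symm : φ.fieldRange = E))
  have hσ : ∀ a : L, ((σ a : E) : Ω) = φ a := fun a => rfl
  let _ : Algebra L L' := ((algebraMap E L').comp (σ : L →+* E)).toAlgebra
  have hst : IsScalarTower K L L' := IsScalarTower.of_algebraMap_eq fun a => by
    change algebraMap K L' a = algebraMap E L' (σ (algebraMap K L a))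
    rw [AlgEquiv.commutes]
    rfl
  have hfd' : FiniteDimensional L L' :=
    Module.Finite.of_equiv_equiv (A₁ := E) (B₁ := L') σ.symm.toRingEquiv (RingEquiv.refl L') (by
      refine RingHom.ext fun a => ?_
      change algebraMap E L' (σ (σ.symm a)) = algebraMap E L' a
      rw [AlgEquiv.apply_symm_apply])
  have hrk' : Module.finrank L L' = Module.finrank E L' :=
    Algebra.finrank_eq_of_equiv_equiv σ.toRingEquiv (RingEquiv.refl L') rfl
  let u : Fin (n + 1) → L' := fun i => ⟨x' i, hxL i⟩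
  let ψ : L' →ₐ[K] Ω := (L'.val).restrictScalars K
  have hψu : (fun i => ψ (u i)) = x' := rfl
  have hψ : ∀ p : MvPolynomial (Fin (n + 1)) K, ψ (aeval u p) = val x' (map (algebraMap K Ω) p) := by
    intro p
    rw [val_eq_eval, eval_map, ← aeval_def, comp_aeval_apply]
    rfl
  obtain ⟨j1, hj1⟩ := Function.ne_iff.1 hz'0
  have hj1' : z' j1 ≠ 0 := hj1
  have hψz : ∀ j, ψ (algebraMap L L' (z j)) = z' j := fun j => rfl
  have hGu : ∀ j, ψ (aeval u (G j)) = (x i0)⁻¹ ^ e * z' j := by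
    intro j
    rw [hψ]
    exact hx'q j
  have hG1 : aeval u (G j1) ≠ 0 := by
    intro h0
    have h1 := hGu j1
    rw [h0, map_zero] at h1
    exact mul_ne_zero hc0 hj1' h1.symm
  refine ⟨L', inferInstance, inferInstance, inferInstance, hst, hfd', ψ, u, i0,
    algebraMap L L' (z j1) / aeval u (G j1), hrk'.le.trans hrk, Subtype.ext hx'1, ?_, ?_,
    fun j => ?_⟩
  · rw [hψu]
    exact ⟨hx'0, hx'Ψ⟩
  · refine div_ne_zero (fun h0 => hj1' ?_) hG1
    rw [← hψz, h0, map_zero]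
  · have h1 : algebraMap L L' (z j) * aeval u (G j1) =
        algebraMap L L' (z j1) * aeval u (G j) := by
      apply ψ.injective
      change ψ _ = ψ _
      rw [map_mul, map_mul, hGu, hGu, hψz, hψz]
      ring
    field_simp
    exact h1

end Pool.Agent.Q58.FI
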