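import Pool.Agent.Q58.FI.Hgt
import Pool.Agent.Q58.FI.Deg
import Mathlib.RingTheory.Nullstellensatz

/-!
A lower bound for the heights of the images of points under forms without common zeros, with
coefficients in a function field.
-/

set_option autoImplicit false
set_option linter.overlappingInstances false
set_option linter.unusedSectionVars false

open FF MvPolynomial Pool.Agent.W603.LV Pool.Agent.W603.PV

namespace Pool.Agent.Q58.FI

open Pool.Agent.Y221.AH Pool.Agent.W602.GT Pool.Agent.Y221.FQ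

/-- order of the value of a polynomial at integral elements -/
theorem ge_int {k L F : Type} [Field k] [Field L] [Algebra k L] [Field F] [Algebra F L] {n : ℕ}
    (P : Place k L) {f : Fin (n + 1) → L} (hf : ∀ j, Ge P 0 (f j))
    {H : MvPolynomial (Fin (n + 1)) F} {N : ℤ}
    (hc : ∀ α ∈ H.support, Ge P N (algebraMap F L (H.coeff α))) :
    Ge P N (aeval f H) := by
  rw [aeval_def, eval₂_eq']
  refine Ge.sum _ _ fun α hα => ?_
  have h1 := (hc α hα).mul (Ge.prod Finset.univ (fun a => f a ^ α a) (fun a => α a * (0 : ℤ))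
    (fun a _ => (hf a).pow (α a)))
  refine h1.mono (le_of_eq ?_)
  simp

/-- The Nullstellensatz. -/
theorem exists_null {K : Type} [Field K] {n M : ℕ} {κ : Type}
    {Ψ : κ → MvPolynomial (Fin (n + 1)) K} {B : Fin (M + 1) → MvPolynomial (Fin (n + 1)) K}
    (hnb : ∀ z : Fin (n + 1) → AlgebraicClosure K, (∀ i, aeval z (Ψ i) = 0) →
      (∀ j, aeval z (B j) = 0) → z = 0) (l : Fin (n + 1)) :
    ∃ (N : ℕ) (Q : Fin (M + 1) → MvPolynomial (Fin (n + 1)) K),
      X l ^ N - ∑ j, Q j * B j ∈ Ideal.span (Set.range Ψ) := by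
  classical
  obtain ⟨I, hI⟩ : ∃ I : Ideal (MvPolynomial (Fin (n + 1)) K),
    I = Ideal.span (Set.range B) ⊔ Ideal.span (Set.range Ψ) := ⟨_, rfl⟩
  have h1 : X l ∈ I.radical := by
    rw [← vanishingIdeal_zeroLocus_eq_radical (K := AlgebraicClosure K)]
    intro z hz
    have h2 : z = 0 := by
      refine hnb z (fun i => hz _ ?_) (fun j => hz _ ?_)
      · rw [hI]
        exact Ideal.mem_sup_right (Ideal.subset_span ⟨i, rfl⟩)
      · rw [hI]
        exact Ideal.mem_sup_left (Ideal.subset_span ⟨j, rfl⟩)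
    rw [h2, aeval_X]
    rfl
  obtain ⟨N, hN⟩ := h1
  rw [hI, Submodule.mem_sup] at hN
  obtain ⟨a, ha, b, hb, hab⟩ := hN
  rw [Ideal.mem_span_range_iff_exists_fun] at ha
  obtain ⟨Q, hQ⟩ := ha
  refine ⟨N, Q, ?_⟩
  rw [← hab, hQ, add_sub_cancel_left]
  exact hb

variable {k K : Type} [Field k] [IsAlgClosed k] [CharZero k] [Field K] [Algebra k K] [IsFF k K]
  {n M : ℕ} {κ : Type}

/-- a lower bound for the heights of the values of forms without common zeros -/
theorem pht_form_ge {Ψ : κ → MvPolynomial (Fin (n + 1)) K}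
    {B : Fin (M + 1) → MvPolynomial (Fin (n + 1)) K} (hΨ : ∀ i, IsForm (Ψ i)) {e : ℕ}
    (hB : ∀ j, (B j).IsHomogeneous e)
    (hnb : ∀ z : Fin (n + 1) → AlgebraicClosure K, (∀ i, aeval z (Ψ i) = 0) →
      (∀ j, aeval z (B j) = 0) → z = 0) :
    ∃ C : ℤ, 0 ≤ C ∧ ∀ (L : Type) [Field L] [Algebra k L] [Algebra K L] [IsScalarTower k K L]
      [FiniteDimensional K L] (u : Fin (n + 1) → L), (∃ j, u j ≠ 0) →
      (∀ i, aeval u (Ψ i) = 0) → (∃ j, aeval u (B j) ≠ 0) →
      e * pht k u ≤ pht k (fun j => aeval u (B j)) + Module.finrank K L * C := by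
  classical
  choose N Q hQ using fun l => exists_null hnb l
  obtain ⟨S, hS⟩ : ∃ S : Finset K, S = Finset.univ.biUnion fun p : Fin (n + 1) × Fin (M + 1) =>
    (Q p.1 p.2).support.image (Q p.1 p.2).coeff := ⟨_, rfl⟩
  let c : Fin (S.card + 1) → K := Fin.cons 1 fun i => (S.equivFin.symm i).1
  have hc0 : ∃ j, c j ≠ 0 := ⟨0, by simp [c]⟩
  have hcS : ∀ x ∈ S, ∃ j, c j = x := by
    intro x hx
    refine ⟨(S.equivFin ⟨x, hx⟩).succ, ?_⟩
    simp [c]
  refine ⟨pht k c, pht_nn hc0, fun L _ _ _ _ _ u hu huΨ hBu => ?_⟩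
  have hff : IsFF k L := isFF_of_finite (F := K)
  have hc0' : ∃ j, algebraMap K L (c j) ≠ 0 := by
    obtain ⟨j, hj⟩ := hc0
    exact ⟨j, by rwa [Ne, map_eq_zero]⟩
  rw [← pht_algebraMap (L := L) hc0]
  obtain ⟨T1, hT1⟩ := exists_supp (k := k) Finset.univ u
  obtain ⟨T2, hT2⟩ := exists_supp (k := k) Finset.univ fun j => aeval u (B j)
  obtain ⟨T3, hT3⟩ := exists_supp (k := k) Finset.univ fun j => algebraMap K L (c j)
  obtain ⟨T, hT⟩ : ∃ T : Finset (Place k L), T = T1 ∪ T2 ∪ T3 := ⟨_, rfl⟩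
  rw [pht_sum hu T fun j P hP => by
      rw [hT]
      exact Finset.mem_union_left _ (Finset.mem_union_left _ (hT1 j (Finset.mem_univ j) P hP)),
    pht_sum hBu T fun j P hP => by
      rw [hT]
      exact Finset.mem_union_left _ (Finset.mem_union_right _ (hT2 j (Finset.mem_univ j) P hP)),
    pht_sum hc0' T fun j P hP => by
      rw [hT]
      exact Finset.mem_union_right _ (hT3 j (Finset.mem_univ j) P hP),
    Finset.mul_sum, ← Finset.sum_add_distrib]
  refine Finset.sum_le_sum fun P _ => ?_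
  -- normalise at the place
  obtain ⟨j0, hj0, hj0'⟩ := exists_pord P hu
  obtain ⟨v, hv⟩ : ∃ v : Fin (n + 1) → L, v = fun j => (u j0)⁻¹ * u j := ⟨_, rfl⟩
  have hv0 : v j0 = 1 := by
    rw [hv]
    exact inv_mul_cancel₀ hj0
  have hvG : ∀ j, Ge P 0 (v j) := by
    intro j
    have h0 : Ge P (P.ord (u j0)⁻¹) (u j0)⁻¹ := Or.inr le_rfl
    have h1 := h0.mul (ge_pord P u j)
    rw [P.ord_inv, hj0'] at h1
    rw [hv]
    exact h1.mono (by omega)
  have hvΨ : ∀ i, aeval v (Ψ i) = 0 := by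
    intro i
    obtain ⟨d, hd⟩ := hΨ i
    have h1 : aeval v (Ψ i) = (u j0)⁻¹ ^ d * aeval u (Ψ i) := by
      rw [hv]
      exact val_smul hd _ _
    rw [h1, huΨ, mul_zero]
  have hvB : ∀ j, aeval v (B j) = (u j0)⁻¹ ^ e * aeval u (B j) := by
    intro j
    rw [hv]
    exact val_smul (hB j) _ _
  have hone : ∑ j, aeval v (Q j0 j) * aeval v (B j) = 1 := by
    have h1 : aeval v (X j0 ^ N j0 - ∑ j, Q j0 j * B j) = 0 := by
      have h2 : Ideal.span (Set.range Ψ) ≤ RingHom.ker (aeval v : _ →ₐ[K] L).toRingHom := by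
        refine Ideal.span_le.2 ?_
        rintro _ ⟨i, rfl⟩
        exact hvΨ i
      exact h2 (hQ j0)
    rw [map_sub, map_pow, aeval_X, hv0, one_pow, map_sum, sub_eq_zero] at h1
    rw [h1]
    exact Finset.sum_congr rfl fun j _ => (map_mul _ _ _).symm
  have hge : Ge P (pord P (fun j => algebraMap K L (c j)) +
      (-(e * P.ord (u j0)) + pord P fun j => aeval u (B j))) 1 := by
    rw [← hone]
    refine Ge.sum _ _ fun j _ => ?_
    refine Ge.mul (ge_int P hvG fun α hα => ?_) ?_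
    · obtain ⟨i, hi⟩ := hcS ((Q j0 j).coeff α) (by
        rw [hS]
        exact Finset.mem_biUnion.2 ⟨(j0, j), Finset.mem_univ _, Finset.mem_image.2 ⟨α, hα, rfl⟩⟩)
      rw [← hi]
      exact ge_pord P (fun j => algebraMap K L (c j)) i
    · rw [hvB]
      refine Ge.mul ?_ (ge_pord P _ j)
      refine Or.inr (le_of_eq ?_)
      rw [P.ord_pow, P.ord_inv]
      ring
  have h1 := hge.resolve_left one_ne_zero
  rw [P.ord_one, hj0'] at h1
  linarith

end Pool.Agent.Q58.FI
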