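import Pool.Agent.Q58.FI.Gen
import Pool.Agent.Y184.NT.Top
import Pool.Agent.Y692.NT.JacA

/-!
Varieties which correspond to subvarieties of generic complete intersections.
-/

set_option autoImplicit false
set_option linter.overlappingInstances false
set_option linter.unusedSectionVars false

open FF Pool.Agent.Y184.NT
open Pool.Agent.W602.GT hiding lin
open Pool.Agent.TH145.MG (DimLE)
open Pool.Agent.TH145.GC (Rt Cf finite_cf)

namespace Pool.Agent.Q58.FI

/-- If a coordinate is one, then the homogeneous coordinates generate the same field. -/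
theorem coords_top {K : Type} [Field K] [Algebra ℂ K] {n : ℕ} {x : Fin (n + 1) → K}
    {j0 : Fin (n + 1)} (hx1 : x j0 = 1)
    (hgen : IntermediateField.adjoin ℂ (Set.range x) = ⊤) : coords ℂ x = ⊤ := by
  rw [_root_.eq_top_iff, ← hgen, IntermediateField.adjoin_le_iff]
  rintro _ ⟨j, rfl⟩
  refine IntermediateField.subset_adjoin ℂ _ ⟨j, j0, ?_, ?_⟩
  · rw [hx1]
    exact one_ne_zero
  · rw [hx1, div_one]

section

variable {k' : Type} [Field k'] [Algebra k' ℂ] {n m w : ℕ} {A : Type} [Fintype A]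
    {d : A → ℕ} {V : Set (MvPolynomial (Fin (n + 1)) k')}
    {F : A → MvPolynomial (Fin (n + 1)) ℂ}

/-- Generic complete intersections do not contain lines. -/
theorem no_line (hV : DimLE k' V m) (hF : ∀ a, (F a).IsHomogeneous (d a))
    (hgen : AlgebraicIndependent k' fun p : Cf n d => (F p.1).coeff p.2.1)
    (hd : 2 * m + 1 ≤ ∑ a, (d a + 1) + w) (hw : 0 < w)
    {L : Type} [Field L] [Algebra ℂ L] [Algebra.EssFiniteType ℂ L] {a b : Fin (n + 1) → L}
    {l : ℕ} (htrL : Algebra.trdeg ℂ L = l)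
    {c0 : Fin (n + 1)} (ha : a c0 = 1) (hbc : b c0 = 0) (hb : b ≠ 0)
    {s : Fin w → Fin (n + 1)}
    (hs : AlgebraicIndependent ℂ fun i => io (lin a b (s i)))
    (hxV : ∀ f ∈ V, restr (MvPolynomial.map (algebraMap k' ℂ) f) a b = 0)
    (hxC : ∀ i, restr (F i) a b = 0) : False := by
  classical
  obtain ⟨y, hy⟩ : ∃ y : Fin (n + 1) → RatFunc L, y = fun j => io (lin a b j) := ⟨_, rfl⟩
  have hy1 : y c0 = 1 := by
    rw [hy]
    simp [io, lin, ha, hbc]
  obtain ⟨M0, hM0⟩ : ∃ M0 : IntermediateField ℂ (RatFunc L),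
    M0 = IntermediateField.adjoin ℂ (Set.range y) := ⟨_, rfl⟩
  have hyM : ∀ j, y j ∈ M0 := fun j => by
    rw [hM0]
    exact IntermediateField.subset_adjoin ℂ _ ⟨j, rfl⟩
  obtain ⟨y0, hy0⟩ : ∃ y0 : Fin (n + 1) → M0, ∀ j, (y0 j : RatFunc L) = y j :=
    ⟨fun j => ⟨y j, hyM j⟩, fun _ => rfl⟩
  have hessM0 : Algebra.EssFiniteType ℂ M0 := by
    rw [hM0, IntermediateField.essFiniteType_iff]
    exact ⟨Finset.univ.image y, by
      rw [Finset.coe_image, Finset.coe_univ, Set.image_univ]⟩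
  have hy01 : y0 c0 = 1 := Subtype.ext (by rw [hy0, hy1]; rfl)
  have hgen0 : IntermediateField.adjoin ℂ (Set.range y0) = ⊤ := by
    subst hM0
    apply IntermediateField.lift_injective
    rw [IntermediateField.lift_adjoin, IntermediateField.lift_top]
    congr 1
    ext z
    constructor
    · rintro ⟨_, ⟨j, rfl⟩, rfl⟩
      exact ⟨j, (hy0 j).symm⟩
    · rintro ⟨j, rfl⟩
      exact ⟨y0 j, ⟨j, rfl⟩, hy0 j⟩
  obtain ⟨w1, hw1⟩ : ∃ w1 : ℕ, Algebra.trdeg ℂ M0 = w1 := by
    have h1 : Algebra.trdeg ℂ M0 < Cardinal.aleph0 := _root_.trdeg_lt_aleph0 ℂ M0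
    obtain ⟨w', hw'⟩ := Cardinal.lt_aleph0.1 h1
    exact ⟨w', hw'⟩
  have hww : w ≤ w1 := by
    have h1 : AlgebraicIndependent ℂ fun i => y0 (s i) := by
      have h2 : AlgebraicIndependent ℂ (fun i => M0.val (y0 (s i))) := by
        have h3 : (fun i => M0.val (y0 (s i))) = fun i => io (lin a b (s i)) := by
          funext i
          have h4 : M0.val (y0 (s i)) = y (s i) := hy0 (s i)
          rw [h4, hy]
        rw [h3]
        exact hs
      exact AlgebraicIndependent.of_comp M0.val h2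
    have h2 := h1.lift_cardinalMk_le_trdeg
    rw [hw1] at h2
    simpa using h2
  have hval : ∀ p : MvPolynomial (Fin (n + 1)) ℂ, restr p a b = 0 →
      MvPolynomial.aeval y0 p = 0 := by
    intro p h0
    apply Subtype.ext
    have h2 : ((MvPolynomial.aeval y0 p : M0) : RatFunc L) =
        MvPolynomial.aeval (fun j => (y0 j : RatFunc L)) p :=
      MvPolynomial.comp_aeval_apply (φ := M0.val) y0 p
    rw [h2, funext hy0, hy, ← io_restr, h0]
    exact map_zero _
  have hcoA : Algebra.IsAlgebraic (coords ℂ y0) M0 := by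
    rw [coords_top hy01 hgen0]
    infer_instance
  obtain ⟨ω, hω, hω0, hreg⟩ := form_gen (k' := k') (N := 0) (w := w1) hV hF
    hgen (by omega) (by omega) hw1 y0 hy01 hcoA (fun f hf => hval _ (hxV f hf))
      (fun i => hval _ (hxC i))
  obtain ⟨z, EM, hz, hEM⟩ := Pool.Agent.Y172.exists_crd (k := ℂ) (K := L) htrL
  obtain ⟨j, hj⟩ := Function.ne_iff.1 hb
  have hj' : b j ≠ 0 := hj
  obtain ⟨c, hc⟩ := t_NLG M0 L w1 l hw1 z hz ω hω (fun P hP => by
    have h1 := hreg Fin.elim0 P hP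
    simpa using h1) hω0 M0.val (y0 j)
  have h3 : M0.val (y0 j) = y j := hy0 j
  rw [h3, hy] at hc
  simp only at hc
  rw [← io_C] at hc
  have h4 : lin a b j = Polynomial.C c := IsFractionRing.injective (Polynomial L) (RatFunc L) hc
  have h5 := congrArg (fun p => Polynomial.coeff p 1) h4
  apply hj'
  simpa [Pool.Agent.Y184.NT.lin] using h5

end

end Pool.Agent.Q58.FI
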