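import Pool.Agent.Q58.FI.Low
import Pool.Agent.Q58.FI.Lift
import Pool.Agent.Q58.FI.Eqs
import Pool.Agent.Y735.R3.FinalK

/-!
Points of bounded degree on images of covers of generic complete intersections.
-/

set_option autoImplicit false

open MvPolynomial FF Pool.Agent.W603.LV Pool.Agent.W603.PV Pool.Agent.TH145
open Pool.Agent.TH145.MG (DimLE)
open Pool.Agent.TH145.GC (Cf)

namespace Pool.Agent.Q58.FI

open Pool.Agent.W602.GT Pool.Agent.Y221.FQ
open Pool.Agent.Y221.AH (pht_algebraMap)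

theorem bounded_im_K {k0 k K0 K : Type} [Field k0] [Field k] [Field K0] [Field K] [IsAlgClosed k]
    [CharZero k] [Algebra k0 k] [Algebra k K] [Algebra k0 K] [IsScalarTower k0 k K]
    [Algebra k0 K0] [Algebra K0 K] [IsScalarTower k0 K0 K] [IsFF k K]
    (hfg : ∃ S : Finset K0, IntermediateField.adjoin k0 (S : Set K0) = ⊤) {n m r t l M : ℕ}
    {A : Type} [Fintype A] {d : A → ℕ} (hd : 2 * m + 1 + r * t ≤ ∑ a, (d a + 1))
    (V : Set (MvPolynomial (Fin (n + 1)) K0)) (hVh : ∀ f ∈ V, ∃ e, f.IsHomogeneous e)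
    (hV : DimLE K0 V m) {F : A → MvPolynomial (Fin (n + 1)) K}
    (hF : ∀ a, (F a).IsHomogeneous (d a))
    (hgen : AlgebraicIndependent K0 fun p : Cf n d => (F p.1).coeff p.2.1)
    {κ μ : Type} {Ψ : κ → MvPolynomial (Fin (l + 1)) K} {Φ : μ → MvPolynomial (Fin (M + 1)) K}
    {B : Fin (n + 1) → MvPolynomial (Fin (l + 1)) K}
    {G : Fin (M + 1) → MvPolynomial (Fin (l + 1)) K} (hΨ : ∀ e, IsForm (Ψ e))
    (hB : Mor (bc Ψ) (bc (eqs V F)) (bc B)) (hG : Mor (bc Ψ) (bc Φ) (bc G))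
    (hon : Onto (bc Ψ) (bc Φ) (bc G)) (hfib : FibresLe (bc Ψ) (bc G) t) :
    ∃ C : ℤ, ∀ (L : Type) [Field L] [Algebra k L] [Algebra K L] [IsScalarTower k K L]
      [FiniteDimensional K L], Module.finrank K L ≤ r → ∀ z : Fin (M + 1) → L, z ≠ 0 →
      (∀ i, aeval z (Φ i) = 0) → pht k z ≤ C := by
  classical
  have hK : CharZero K := charZero_of_injective_algebraMap (algebraMap k K).injective
  obtain ⟨eB, heB, hBe'⟩ := hB.form
  obtain ⟨eG, heG, hGe'⟩ := hG.form
  have hinj : Function.Injective (algebraMap K (AlgebraicClosure K)) :=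
    (algebraMap K (AlgebraicClosure K)).injective
  have hBe : ∀ j, (B j).IsHomogeneous eB := fun j => IsHomogeneous.of_map hinj (hBe' j)
  have hGe : ∀ j, (G j).IsHomogeneous eG := fun j => IsHomogeneous.of_map hinj (hGe' j)
  have hvc : ∀ {s : ℕ} (x : Fin (s + 1) → AlgebraicClosure K) (p : MvPolynomial (Fin (s + 1)) K),
      val x (map (algebraMap K (AlgebraicClosure K)) p) = aeval x p := by
    intro s x p
    rw [val_eq_eval, eval_map]
    rfl
  obtain ⟨C1, hC1⟩ := Pool.Agent.Y735.R3.bounded_K (k0 := k0) (k := k) hfg hd V hVh hV hF hgen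
  obtain ⟨C2, hC20, hC2⟩ := pht_form_ge (k := k) hΨ hBe (fun z hzΨ hzB => by
    by_contra hz
    refine (hB.maps z ⟨hz, fun i => ?_⟩).1 (funext fun j => ?_)
    · unfold bc
      rw [hvc]
      exact hzΨ i
    · unfold im bc
      rw [hvc]
      exact hzB j)
  obtain ⟨C3, hC30, hC3⟩ := pht_form_le (k := k) hGe
  refine ⟨eG * (max C1 0 + (r * t : ℕ) * C2) + (r * t : ℕ) * C3,
    fun L _ _ _ _ _ hr z hz hzΦ => ?_⟩
  obtain ⟨E, i1, i2, i3, i4, i5, ψ, u, i0, c, hrk, hu0, huΨ, hc0, hcz⟩ :=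
    lift_pt hΨ hG hon hfib hz hzΦ
  let _ : Algebra k E := ((algebraMap L E).comp (algebraMap k L)).toAlgebra
  have hst1 : IsScalarTower k L E := IsScalarTower.of_algebraMap_eq' rfl
  have hst2 : IsScalarTower k K E := by
    refine IsScalarTower.of_algebraMap_eq fun a => ?_
    rw [IsScalarTower.algebraMap_apply K L E, ← IsScalarTower.algebraMap_apply k K L]
    rfl
  have hfd : FiniteDimensional K E := FiniteDimensional.trans K L E
  have hLff : IsFF k L := isFF_of_finite (F := K)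
  have hEff : IsFF k E := isFF_of_finite (F := K)
  have hfr : Module.finrank K E ≤ r * t := by
    rw [← Module.finrank_mul_finrank K L E]
    exact Nat.mul_le_mul hr hrk
  have hψ : ∀ {s : ℕ} (v : Fin (s + 1) → E) (p : MvPolynomial (Fin (s + 1)) K),
      ψ (aeval v p) = val (fun i => ψ (v i)) (map (algebraMap K (AlgebraicClosure K)) p) := by
    intro s v p
    rw [hvc, comp_aeval_apply]
  have hψ0 : ∀ x : E, ψ x = 0 → x = 0 := by
    intro x hx
    exact (map_eq_zero ψ).1 hx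
  have huex : ∃ j, u j ≠ 0 := ⟨i0, by rw [hu0]; exact one_ne_zero⟩
  have huΨ' : ∀ i, aeval u (Ψ i) = 0 := by
    intro i
    apply hψ0
    rw [hψ]
    exact huΨ.2 i
  have hBu := hB.maps _ huΨ
  have hGu := hG.maps _ huΨ
  have himB : im (bc B) (fun i => ψ (u i)) = fun j => ψ (aeval u (B j)) := by
    funext j
    rw [hψ]
    rfl
  have himG : im (bc G) (fun i => ψ (u i)) = fun j => ψ (aeval u (G j)) := by
    funext j
    rw [hψ]
    rfl
  rw [himB] at hBu
  rw [himG] at hGu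
  obtain ⟨jB, hjB⟩ := Function.ne_iff.1 hBu.1
  obtain ⟨jG, hjG⟩ := Function.ne_iff.1 hGu.1
  have hjB' : aeval u (B jB) ≠ 0 := fun h => hjB (by rw [h, map_zero]; rfl)
  have hjG' : aeval u (G jG) ≠ 0 := fun h => hjG (by rw [h, map_zero]; rfl)
  have hBx : (fun j => aeval u (B j)) ≠ 0 := fun h => hjB' (congrFun h jB)
  have h1 := hC1 E hfr (fun j => aeval u (B j)) hBx (fun f hf => by
    apply hψ0
    rw [hψ]
    exact hBu.2 (Sum.inl ⟨f, hf⟩)) (fun a => by
    apply hψ0
    rw [hψ]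
    exact hBu.2 (Sum.inr a))
  have h2 := hC2 E u huex huΨ' ⟨jB, hjB'⟩
  have h3 := hC3 E u huex ⟨jG, hjG'⟩
  have hz' : ∃ j, z j ≠ 0 := Function.ne_iff.1 hz
  have h4 : (Module.finrank L E : ℤ) * pht k z = pht k fun j => aeval u (G j) := by
    rw [← pht_algebraMap hz']
    have h5 : (fun j => algebraMap L E (z j)) = fun j => c * aeval u (G j) := funext hcz
    rw [h5, pht_scale ⟨jG, hjG'⟩ hc0]
  have h5 : 0 ≤ pht k z := pht_nn hz'
  have h6 : 0 ≤ pht k u := pht_nn huex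
  have h7 : (1 : ℤ) ≤ Module.finrank L E := by exact_mod_cast Module.finrank_pos
  have h8 : (Module.finrank K E : ℤ) ≤ (r * t : ℕ) := by exact_mod_cast hfr
  have h9 : pht k z ≤ Module.finrank L E * pht k z := by nlinarith
  have h10 : (1 : ℤ) ≤ eB := by exact_mod_cast heB
  have h11 : pht k u ≤ eB * pht k u := by nlinarith
  have h12 : (Module.finrank K E : ℤ) * C2 ≤ (r * t : ℕ) * C2 :=
    mul_le_mul_of_nonneg_right h8 hC20
  have h13 : (Module.finrank K E : ℤ) * C3 ≤ (r * t : ℕ) * C3 :=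
    mul_le_mul_of_nonneg_right h8 hC30
  have h14 : pht k u ≤ max C1 0 + (r * t : ℕ) * C2 := by
    have := le_max_left C1 0
    linarith
  have h15 : (eG : ℤ) * pht k u ≤ eG * (max C1 0 + (r * t : ℕ) * C2) :=
    mul_le_mul_of_nonneg_left h14 (by positivity)
  linarith

end Pool.Agent.Q58.FI
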